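import Pool.Agent.H29.KL.Step

/-!
# Gröbner tool for Kazhdan–Lusztig ideals: the combinatorial induction step (MP_a7460d_ag)
-/

namespace Pool.Agent.H29.KL

open Pool.Agent.H30.KL

variable {n : ℕ} {u v V : Equiv.Perm (Fin n)} {a a' : Fin n}

theorem rk_mono_right (v : Equiv.Perm (Fin n)) (i : Fin n) {j j' : Fin n} (h : j ≤ j') :
    rk v i j ≤ rk v i j' := by
  apply Finset.card_le_card
  intro k hk
  simp only [Finset.mem_filter, Finset.mem_univ, true_and] at hk ⊢
  exact ⟨hk.1.trans h, hk.2⟩

theorem LA.bad_step (h : LA u a a') {T S : Fin n → Fin n → Prop} (hTS : ∀ r α, T r α → S r α)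
    (hV1 : ∀ i j, j ≠ a → rk v i j ≤ rk V i j)
    (hV2 : (S (u a') (u a) ∧ ∀ i, rk v i a ≤ rk V i a) ∨ ∀ i, rk v i a' ≤ rk V i a ∨
      (1 ≤ rk V i a ∧ ∀ j', j' < a → rk v i j' + 1 ≤ rk V i a))
    (hbad : Bad (u * Equiv.swap a a') V T) : Bad u v S := by
  classical
  obtain ⟨i, j, I, J, σ, hI, hJ, hcard, hσ, hS⟩ := hbad
  by_cases ha : a ∈ J
  · by_cases ha' : a' ∈ J
    · -- both
      have hja : j ≠ a := fun h1 => absurd (hJ a' ha') (not_le.2 (h1 ▸ h.lt))
      have hσa : σ a = u a' := h.cell_a.1 (hσ.cell a ha)
      refine ⟨i, j, I, J, _, hI, hJ, (hV1 i j hja).trans_lt hcard, h.transfer_both ha ha' hσ, ?_⟩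
      intro c hc hne
      by_cases h1 : c = a
      · rw [h1, Equiv.swap_apply_left] at hne ⊢
        have h2 := hS a' ha'
        rw [h.us_a'] at h2
        exact hTS _ _ (h2 hne)
      by_cases h2 : c = a'
      · exfalso
        apply hne
        rw [h2, Equiv.swap_apply_right, hσa]
      · rw [Equiv.swap_apply_of_ne_of_ne h1 h2] at hne ⊢
        have h3 := hS c hc
        rw [h.us_ne h1 h2] at h3
        exact hTS _ _ (h3 hne)
    · -- only `a`
      have hσa : σ a = u a' := h.cell_a.1 (hσ.cell a ha)
      have hsup : ∀ c ∈ J, c ≠ a → σ c ≠ u c → S (σ c) (u c) := by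
        intro c hc h1 hne
        have h3 := hS c hc
        rw [h.us_ne h1 (fun h2 => ha' (h2 ▸ hc))] at h3
        exact hTS _ _ (h3 hne)
      rcases hV2 with ⟨hz, hz2⟩ | hV2
      · refine ⟨i, j, I, J, σ, hI, hJ, ?_, h.transfer_a ha ha' hσ, ?_⟩
        · by_cases hja : j = a
          · rw [hja] at hcard ⊢
            exact (hz2 i).trans_lt hcard
          · exact (hV1 i j hja).trans_lt hcard
        · intro c hc hne
          by_cases h1 : c = a
          · rw [h1, hσa]
            exact hz
          · exact hsup c hc h1 hne
      · have hcd : (insert a' (J.erase a)).card = J.card := by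
          rw [Finset.card_insert_of_notMem (fun h1 => ha' (Finset.mem_of_mem_erase h1)),
            Finset.card_erase_of_mem ha]
          have := Finset.card_pos.2 ⟨a, ha⟩
          omega
        have hsup' : ∀ c ∈ insert a' (J.erase a), Function.update σ a' (u a') c ≠ u c →
            S (Function.update σ a' (u a') c) (u c) := by
          intro c hc hne
          by_cases h1 : c = a'
          · exfalso
            apply hne
            rw [h1, Function.update_self]
          · rw [Function.update_of_ne h1] at hne ⊢
            rw [Finset.mem_insert] at hc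
            rcases hc with hc | hc
            · exact absurd hc h1
            · rw [Finset.mem_erase] at hc
              exact hsup c hc.2 hc.1 hne
        by_cases hja : j = a
        · rcases hV2 i with h1 | ⟨h1, h2⟩
          · refine ⟨i, a', I, _, _, hI, ?_, ?_, h.transfer_a_to_a' ha ha' hσ, hsup'⟩
            · intro c hc
              rw [Finset.mem_insert] at hc
              rcases hc with hc | hc
              · exact hc.le
              · exact (hJ c (Finset.mem_of_mem_erase hc)).trans (hja ▸ h.lt.le)
            · rw [hcd]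
              rw [hja] at hcard
              exact h1.trans_lt hcard
          · have hne : (J.erase a).Nonempty := by
              rw [← Finset.card_pos, Finset.card_erase_of_mem ha]
              rw [hja] at hcard
              omega
            have hlt : (J.erase a).max' hne < a := by
              have h3 := Finset.max'_mem _ hne
              rw [Finset.mem_erase] at h3
              have h4 := hJ _ h3.2
              rw [hja] at h4
              exact lt_of_le_of_ne h4 h3.1
            refine ⟨i, (J.erase a).max' hne, I.erase (σ a), J.erase a, σ,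
              fun r hr => hI r (Finset.mem_of_mem_erase hr), fun c hc => Finset.le_max' _ _ hc, ?_,
              h.transfer_none (Finset.notMem_erase a J)
                (fun h3 => ha' (Finset.mem_of_mem_erase h3)) (hσ.erase ha), ?_⟩
            · have h4 := h2 _ hlt
              rw [Finset.card_erase_of_mem ha]
              rw [hja] at hcard
              omega
            · intro c hc hne'
              rw [Finset.mem_erase] at hc
              exact hsup c hc.2 hc.1 hne'
        · have h1 : a' ≤ j := h.ge (lt_of_le_of_ne (hJ a ha) (Ne.symm hja))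
          refine ⟨i, j, I, _, _, hI, ?_, ?_, h.transfer_a_to_a' ha ha' hσ, hsup'⟩
          · intro c hc
            rw [Finset.mem_insert] at hc
            rcases hc with hc | hc
            · rw [hc]
              exact h1
            · exact hJ c (Finset.mem_of_mem_erase hc)
          · rw [hcd]
            exact (hV1 i j hja).trans_lt hcard
  · by_cases ha' : a' ∈ J
    · have hja : j ≠ a := fun h1 => absurd (hJ a' ha') (not_le.2 (h1 ▸ h.lt))
      have haj : a ≤ j := h.lt.le.trans (hJ a' ha')
      have hS' := hS a' ha'
      rw [h.us_a'] at hS'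
      by_cases hρ : u a' ∈ I
      · obtain ⟨b, hb, hbρ⟩ := hσ.bij.surjOn (Finset.mem_coe.2 hρ)
        rw [Finset.mem_coe] at hb
        obtain ⟨hlt, hmax⟩ := h.transfer_a'_b ha ha' hb hbρ hσ
        refine ⟨i, j, I, _, _, hI, ?_, ?_, hmax, ?_⟩
        · intro c hc
          rw [Finset.mem_insert] at hc
          rcases hc with hc | hc
          · rw [hc]
            exact haj
          · exact hJ c (Finset.mem_of_mem_erase hc)
        · rw [Finset.card_insert_of_notMem (fun h1 => ha (Finset.mem_of_mem_erase h1)),
            Finset.card_erase_of_mem hb]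
          have := Finset.card_pos.2 ⟨b, hb⟩
          have := (hV1 i j hja).trans_lt hcard
          omega
        · intro c hc hne
          by_cases h1 : c = a
          · rw [h1, Function.update_self] at hne ⊢
            exact hTS _ _ (hS' hne)
          rw [Function.update_of_ne h1] at hne ⊢
          by_cases h2 : c = a'
          · exfalso
            apply hne
            rw [h2, Function.update_self]
          rw [Function.update_of_ne h2] at hne ⊢
          rw [Finset.mem_insert] at hc
          rcases hc with hc | hc
          · exact absurd hc h1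
          · have h3 := hS c (Finset.mem_of_mem_erase hc)
            rw [h.us_ne h1 h2] at h3
            exact hTS _ _ (h3 hne)
      · refine ⟨i, j, I, _, _, hI, ?_, ?_, h.transfer_a'_to_a ha ha' hρ hσ, ?_⟩
        · intro c hc
          rw [Finset.mem_insert] at hc
          rcases hc with hc | hc
          · rw [hc]
            exact haj
          · exact hJ c (Finset.mem_of_mem_erase hc)
        · rw [Finset.card_insert_of_notMem (fun h1 => ha (Finset.mem_of_mem_erase h1)),
            Finset.card_erase_of_mem ha']
          have := Finset.card_pos.2 ⟨a', ha'⟩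
          have := (hV1 i j hja).trans_lt hcard
          omega
        · intro c hc hne
          by_cases h1 : c = a
          · rw [h1, Function.update_self] at hne ⊢
            exact hTS _ _ (hS' hne)
          rw [Function.update_of_ne h1] at hne ⊢
          rw [Finset.mem_insert] at hc
          rcases hc with hc | hc
          · exact absurd hc h1
          · rw [Finset.mem_erase] at hc
            have h3 := hS c hc.2
            rw [h.us_ne h1 hc.1] at h3
            exact hTS _ _ (h3 hne)
    · -- none
      have hsup : ∀ c ∈ J, σ c ≠ u c → S (σ c) (u c) := by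
        intro c hc hne
        have h3 := hS c hc
        rw [h.us_ne (fun h1 => ha (h1 ▸ hc)) (fun h2 => ha' (h2 ▸ hc))] at h3
        exact hTS _ _ (h3 hne)
      by_cases hja : j = a
      · rcases hV2 with ⟨_, hz2⟩ | hV2
        · refine ⟨i, j, I, J, σ, hI, hJ, ?_, h.transfer_none ha ha' hσ, hsup⟩
          rw [hja] at hcard ⊢
          exact (hz2 i).trans_lt hcard
        · have hne : J.Nonempty := by
            rw [← Finset.card_pos]
            omega
          have hlt : J.max' hne < a := by
            have h3 := Finset.max'_mem _ hne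
            have h5 := hJ _ h3
            rw [hja] at h5
            refine lt_of_le_of_ne h5 (fun h4 => ha ?_)
            rw [h4] at h3
            exact h3
          refine ⟨i, J.max' hne, I, J, σ, hI, fun c hc => Finset.le_max' _ _ hc, ?_,
            h.transfer_none ha ha' hσ, hsup⟩
          rw [hja] at hcard
          rcases hV2 i with h1 | ⟨_, h1⟩
          · exact ((rk_mono_right v i (hlt.trans h.lt).le).trans h1).trans_lt hcard
          · have := h1 _ hlt
            omega
      · exact ⟨i, j, I, J, σ, hI, hJ, (hV1 i j hja).trans_lt hcard, h.transfer_none ha ha' hσ,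
          hsup⟩

/-- the Demazure product `v * s_a` -/
def dem (v : Equiv.Perm (Fin n)) (a a' : Fin n) : Equiv.Perm (Fin n) :=
  if v a < v a' then v * Equiv.swap a a' else v

theorem rk_swap_of_ne (v : Equiv.Perm (Fin n)) {a a' : Fin n} (hs : (a' : ℕ) = a + 1) (i : Fin n)
    {j : Fin n} (hj : j ≠ a) : rk (v * Equiv.swap a a') i j = rk v i j := by
  rw [rk, rk]
  apply Finset.card_bij (fun k _ => Equiv.swap a a' k)
  · intro k hk
    rw [Finset.mem_filter] at hk ⊢
    replace hk := hk.2
    refine ⟨Finset.mem_univ _, ?_, hk.2⟩
    by_cases h1 : k = a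
    · rw [h1, Equiv.swap_apply_left]
      have h2 : a < j := lt_of_le_of_ne (h1 ▸ hk.1) (Ne.symm hj)
      rw [Fin.le_def, hs]
      exact h2
    by_cases h2 : k = a'
    · rw [h2, Equiv.swap_apply_right]
      have h3 : a' ≤ j := h2 ▸ hk.1
      rw [Fin.le_def] at h3 ⊢
      omega
    rw [Equiv.swap_apply_of_ne_of_ne h1 h2]
    exact hk.1
  · intro k _ l _ hkl
    exact (Equiv.swap a a').injective hkl
  · intro k hk
    rw [Finset.mem_filter] at hk
    replace hk := hk.2
    refine ⟨Equiv.swap a a' k, ?_, by simp⟩
    rw [Finset.mem_filter]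
    refine ⟨Finset.mem_univ _, ?_, by simpa using hk.2⟩
    by_cases h1 : k = a
    · rw [h1, Equiv.swap_apply_left]
      have h2 : a < j := lt_of_le_of_ne (h1 ▸ hk.1) (Ne.symm hj)
      rw [Fin.le_def, hs]
      exact h2
    by_cases h2 : k = a'
    · rw [h2, Equiv.swap_apply_right]
      have h3 : a' ≤ j := h2 ▸ hk.1
      rw [Fin.le_def] at h3 ⊢
      omega
    rw [Equiv.swap_apply_of_ne_of_ne h1 h2]
    exact hk.1

theorem rk_dem_of_ne (v : Equiv.Perm (Fin n)) {a a' : Fin n} (hs : (a' : ℕ) = a + 1) (i : Fin n)
    {j : Fin n} (hj : j ≠ a) : rk (dem v a a') i j = rk v i j := by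
  rw [dem]
  split_ifs
  · exact rk_swap_of_ne v hs i hj
  · rfl

/-- the value at `a` of `v * s_a` -/
theorem dem_a (v : Equiv.Perm (Fin n)) {a a' : Fin n} : v a ≤ dem v a a' a ∧ v a' ≤ dem v a a' a := by
  rw [dem]
  split_ifs with h
  · simp [h.le]
  · exact ⟨le_refl _, not_lt.1 h⟩

theorem dem_of_lt (v : Equiv.Perm (Fin n)) {a a' k : Fin n} (hk : k ≠ a) (hk' : k ≠ a') :
    dem v a a' k = v k := by
  rw [dem]
  split_ifs
  · rw [Equiv.Perm.mul_apply, Equiv.swap_apply_of_ne_of_ne hk hk']
  · rfl

theorem rk_dem_a (v : Equiv.Perm (Fin n)) {a a' : Fin n} (hs : (a' : ℕ) = a + 1) (i : Fin n) :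
    rk v i a' ≤ rk (dem v a a') i a ∨
      (1 ≤ rk (dem v a a') i a ∧ ∀ j', j' < a → rk v i j' + 1 ≤ rk (dem v a a') i a) := by
  classical
  by_cases hi : i ≤ dem v a a' a
  · right
    constructor
    · rw [rk]
      apply Finset.card_pos.2
      exact ⟨a, by simp [hi]⟩
    · intro j' hj'
      have h1 : insert a (Finset.univ.filter fun k => k ≤ j' ∧ i ≤ v k) ⊆
          Finset.univ.filter fun k => k ≤ a ∧ i ≤ dem v a a' k := by
        intro k hk
        rw [Finset.mem_insert] at hk
        rcases hk with hk | hk
        · simp [hk, hi]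
        · simp only [Finset.mem_filter, Finset.mem_univ, true_and] at hk ⊢
          have h2 : k < a := lt_of_le_of_lt hk.1 hj'
          refine ⟨h2.le, ?_⟩
          rw [dem_of_lt v (ne_of_lt h2)]
          · exact hk.2
          · intro h3
            rw [h3, Fin.lt_def] at h2
            omega
      have h2 := Finset.card_le_card h1
      rw [Finset.card_insert_of_notMem] at h2
      · exact h2
      · simp only [Finset.mem_filter, Finset.mem_univ, true_and, not_and]
        intro h3
        exact absurd hj' (not_lt.2 h3)
  · left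
    rw [not_le] at hi
    apply Finset.card_le_card
    intro k hk
    simp only [Finset.mem_filter, Finset.mem_univ, true_and] at hk ⊢
    have h1 : k ≠ a := by
      intro h1
      rw [h1] at hk
      exact absurd (hk.2.trans (dem_a v).1) (not_le.2 hi)
    have h2 : k ≠ a' := by
      intro h1
      rw [h1] at hk
      exact absurd (hk.2.trans (dem_a v).2) (not_le.2 hi)
    refine ⟨?_, ?_⟩
    · have h3 : (k : ℕ) ≤ a' := hk.1
      have h4 : (k : ℕ) ≠ a' := fun h5 => h2 (Fin.ext h5)
      rw [Fin.le_def]
      omega
    · rw [dem_of_lt v h1 h2]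
      exact hk.2

/-- step (ii): the cell `z` is used -/
theorem LA.bad_of_mem (h : LA u a a') {T S : Fin n → Fin n → Prop} (hTS : ∀ r α, T r α → S r α)
    (hz : S (u a') (u a)) (hbad : Bad (u * Equiv.swap a a') v T) : Bad u v S :=
  h.bad_step hTS (fun _ _ _ => le_refl _) (Or.inl ⟨hz, fun _ => le_refl _⟩) hbad

/-- step (i): the cell `z` is not used -/
theorem LA.bad_of_dem (h : LA u a a') {S : Fin n → Fin n → Prop}
    (hbad : Bad (u * Equiv.swap a a') (dem v a a') S) : Bad u v S :=
  h.bad_step (fun _ _ => id) (fun i _ hj => (rk_dem_of_ne v h.succ i hj).ge)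
    (Or.inr fun i => rk_dem_a v h.succ i) hbad

/-- the base case: `u` is not below `v` -/
theorem bad_of_not_le {S : Fin n → Fin n → Prop} {i j : Fin n} (hij : rk v i j < rk u i j) :
    Bad u v S := by
  classical
  refine ⟨i, j, (Finset.univ.filter fun k => k ≤ j ∧ i ≤ u k).image u,
    Finset.univ.filter fun k => k ≤ j ∧ i ≤ u k, u, ?_, ?_, hij, ⟨⟨?_, ?_⟩, ?_⟩, ?_⟩
  · intro r hr
    rw [Finset.mem_image] at hr
    obtain ⟨k, hk, rfl⟩ := hr
    simp only [Finset.mem_filter, Finset.mem_univ, true_and] at hk
    exact hk.2
  · intro c hc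
    simp only [Finset.mem_filter, Finset.mem_univ, true_and] at hc
    exact hc.1
  · rw [Finset.coe_image]
    exact Set.InjOn.bijOn_image u.injective.injOn
  · intro c _
    exact ⟨le_refl _, by simp⟩
  · -- every matching is `u`
    intro τ hτ
    set J := Finset.univ.filter fun k => k ≤ j ∧ i ≤ u k with hJ
    have h1 : ∑ c ∈ J, ((τ c : Fin n) : ℕ) = ∑ c ∈ J, ((u c : Fin n) : ℕ) := by
      have h2 : J.image τ = J.image u := by
        apply Finset.coe_injective
        rw [Finset.coe_image, hτ.bij.image_eq]
      rw [← Finset.sum_image (f := fun r : Fin n => (r : ℕ)) (g := τ) hτ.bij.injOn, h2,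
        Finset.sum_image u.injective.injOn]
    have h3 : ∀ c ∈ J, ((u c : Fin n) : ℕ) = ((τ c : Fin n) : ℕ) := by
      apply (Finset.sum_eq_sum_iff_of_le _).1 h1.symm
      intro c hc
      exact (hτ.cell c hc).1
    intro c hc _
    exact (Fin.ext (h3 c hc)).ge
  · intro c _ h1
    exact absurd rfl h1

end Pool.Agent.H29.KL
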