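import Pool.Agent.H30.KL.Defs

/-!
# Gröbner tool for Kazhdan–Lusztig ideals: matchings (MP_a7460d_ag)

`u s` is obtained from `u` by exchanging the positions `a`, `a' = a + 1` of the last ascent.
`Bad u v S`: some box has a minor of size `> r_v` whose lexicographically largest matching uses only
ones and cells of `S`.
-/

namespace Pool.Agent.H29.KL

open Pool.Agent.H30.KL

variable {n : ℕ}

/-- the nonzero cells of `Z^{(u)}` -/
def Cell (u : Equiv.Perm (Fin n)) (r c : Fin n) : Prop := u c ≤ r ∧ c ≤ u.symm r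

/-- `σ` is a perfect matching of the columns `J` with the rows `I` by nonzero cells -/
structure Mat (u : Equiv.Perm (Fin n)) (I J : Finset (Fin n)) (σ : Fin n → Fin n) : Prop where
  bij : Set.BijOn σ ↑J ↑I
  cell : ∀ c ∈ J, Cell u (σ c) c

/-- `σ` is the lexicographically largest perfect matching (columns right to left, larger rows
first) -/
structure LexMax (u : Equiv.Perm (Fin n)) (I J : Finset (Fin n)) (σ : Fin n → Fin n) : Prop
    extends Mat u I J σ where
  max : ∀ τ, Mat u I J τ → ∀ c ∈ J, (∀ c' ∈ J, c < c' → τ c' = σ c') → τ c ≤ σ c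

/-- a minor of size `> r_v(i,j)` of the box `(i,j)` whose leading matching uses only ones and cells
of `S` (a cell is given by its row and by the value of the dot of its column) -/
def Bad (u v : Equiv.Perm (Fin n)) (S : Fin n → Fin n → Prop) : Prop :=
  ∃ (i j : Fin n) (I J : Finset (Fin n)) (σ : Fin n → Fin n), (∀ r ∈ I, i ≤ r) ∧ (∀ c ∈ J, c ≤ j) ∧
    rk v i j < J.card ∧ LexMax u I J σ ∧ ∀ c ∈ J, σ c ≠ u c → S (σ c) (u c)

/-- `a` is the last ascent of `u` -/
structure LA (u : Equiv.Perm (Fin n)) (a a' : Fin n) : Prop where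
  succ : (a' : ℕ) = a + 1
  asc : u a < u a'
  anti : ∀ b c, a' ≤ b → b < c → u c < u b

theorem exists_LA (u : Equiv.Perm (Fin n)) :
    (∀ b c, b < c → u c < u b) ∨ ∃ a a', LA u a a' := by
  classical
  let P : ℕ → Prop := fun k => ∀ b c : Fin n, k ≤ (b : ℕ) → b < c → u c < u b
  have hP : ∃ k, P k := ⟨n, fun b c hb _ => absurd b.2 (not_lt.2 hb)⟩
  have h1 := Nat.find_spec hP
  rcases Nat.eq_zero_or_pos (Nat.find hP) with h0 | h0
  · left
    intro b c hbc
    exact h1 b c (by omega) hbc
  · right
    have h2 := Nat.find_min hP (m := Nat.find hP - 1) (by omega)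
    have h3 : ∃ b c : Fin n, Nat.find hP - 1 ≤ (b : ℕ) ∧ b < c ∧ u b < u c := by
      by_contra hcon
      push Not at hcon
      apply h2
      intro b c hb hbc
      have h4 := hcon b c hb hbc
      exact lt_of_le_of_ne h4 (fun h5 => (ne_of_lt hbc) (u.injective h5).symm)
    obtain ⟨b, c, hb, hbc, huc⟩ := h3
    have hbk : (b : ℕ) = Nat.find hP - 1 := by
      by_contra hne
      have h4 := h1 b c (by omega) hbc
      exact absurd huc (not_lt.2 h4.le)
    have hcn : (b : ℕ) + 1 < n := by
      have h4 := c.2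
      have h5 : (b : ℕ) < c := hbc
      omega
    refine ⟨b, ⟨b + 1, hcn⟩, rfl, ?_, ?_⟩
    · by_cases hc : c = ⟨b + 1, hcn⟩
      · rw [← hc]
        exact huc
      · have h5 : (⟨b + 1, hcn⟩ : Fin n) < c := by
          have h6 : (b : ℕ) < c := hbc
          rw [Fin.lt_def]
          rcases Nat.lt_or_ge ((b : ℕ) + 1) c with h7 | h7
          · exact h7
          · exfalso
            apply hc
            apply Fin.ext
            simp
            omega
        refine huc.trans (h1 _ _ ?_ h5)
        change Nat.find hP ≤ (b : ℕ) + 1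
        omega
    · intro x y hx hxy
      apply h1 x y _ hxy
      have h6 : (b : ℕ) + 1 ≤ x := hx
      omega

section

variable {u v : Equiv.Perm (Fin n)} {a a' : Fin n}

theorem LA.lt (h : LA u a a') : a < a' := by
  rw [Fin.lt_def, h.succ]
  omega

theorem LA.ne (h : LA u a a') : a ≠ a' := ne_of_lt h.lt

theorem LA.ge (h : LA u a a') {c : Fin n} (hc : a < c) : a' ≤ c := by
  rw [Fin.le_def, h.succ]
  exact hc

theorem LA.us_a (_h : LA u a a') : (u * Equiv.swap a a') a = u a' := by simp

theorem LA.us_a' (_h : LA u a a') : (u * Equiv.swap a a') a' = u a := by simp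

theorem LA.us_ne (_h : LA u a a') {c : Fin n} (h1 : c ≠ a) (h2 : c ≠ a') :
    (u * Equiv.swap a a') c = u c := by
  rw [Equiv.Perm.mul_apply, Equiv.swap_apply_of_ne_of_ne h1 h2]

theorem LA.symm_a (_h : LA u a a') : (u * Equiv.swap a a').symm (u a') = a := by
  rw [Equiv.symm_apply_eq]
  simp

theorem LA.symm_a' (_h : LA u a a') : (u * Equiv.swap a a').symm (u a) = a' := by
  rw [Equiv.symm_apply_eq]
  simp

theorem LA.symm_ne (_h : LA u a a') {r : Fin n} (h1 : r ≠ u a) (h2 : r ≠ u a') :
    (u * Equiv.swap a a').symm r = u.symm r := by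
  rw [Equiv.symm_apply_eq, Equiv.Perm.mul_apply, Equiv.swap_apply_of_ne_of_ne]
  · simp
  · intro h3
    apply h1
    rw [← h3]
    simp
  · intro h3
    apply h2
    rw [← h3]
    simp

/-- the columns right of `a` contain only their ones -/
theorem LA.cell_right (h : LA u a a') {r c : Fin n} (hc : a < c) : Cell u r c ↔ r = u c := by
  constructor
  · rintro ⟨h1, h2⟩
    by_contra hne
    have h3 : c < u.symm r := lt_of_le_of_ne h2 (fun h4 => hne (by rw [h4]; simp))
    have h4 := h.anti c (u.symm r) (h.ge hc) h3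
    rw [Equiv.apply_symm_apply] at h4
    exact absurd h4 (not_lt.2 h1)
  · rintro rfl
    exact ⟨le_refl _, by simp⟩

theorem LA.cell_other (h : LA u a a') {r c : Fin n} (h1 : c ≠ a) (h2 : c ≠ a') :
    Cell (u * Equiv.swap a a') r c ↔ Cell u r c := by
  rw [Cell, Cell, h.us_ne h1 h2]
  apply and_congr_right
  intro _
  by_cases h3 : r = u a
  · rw [h3, h.symm_a', Equiv.symm_apply_apply]
    constructor
    · intro h4
      by_contra h5
      rw [not_le] at h5
      exact h2 (le_antisymm h4 (h.ge h5))
    · intro h4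
      exact h4.trans h.lt.le
  by_cases h4 : r = u a'
  · rw [h4, h.symm_a, Equiv.symm_apply_apply]
    constructor
    · intro h5
      exact h5.trans h.lt.le
    · intro h5
      by_contra h6
      rw [not_le] at h6
      exact h2 (le_antisymm h5 (h.ge h6))
  rw [h.symm_ne h3 h4]

/-- column `a` of `u s` -/
theorem LA.cell_a (h : LA u a a') {r : Fin n} :
    Cell (u * Equiv.swap a a') r a ↔ r = u a' := by
  rw [Cell, h.us_a]
  constructor
  · rintro ⟨h1, h2⟩
    by_contra hne
    have h3 : r ≠ u a := by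
      intro h4
      rw [h4] at h1
      exact absurd h.asc (not_lt.2 h1)
    rw [h.symm_ne h3 hne] at h2
    have h4 : a < u.symm r := lt_of_le_of_ne h2 (fun h5 => h3 (by rw [h5]; simp))
    have h5 : a' < u.symm r := lt_of_le_of_ne (h.ge h4) (fun h5 => hne (by rw [h5]; simp))
    have h6 := h.anti a' (u.symm r) (le_refl _) h5
    rw [Equiv.apply_symm_apply] at h6
    exact absurd h6 (not_lt.2 h1)
  · rintro rfl
    exact ⟨le_refl _, by rw [h.symm_a]⟩

/-- column `a'` of `u s` is column `a` of `u` without the row `u a'` -/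
theorem LA.cell_a' (h : LA u a a') {r : Fin n} :
    Cell (u * Equiv.swap a a') r a' ↔ Cell u r a ∧ r ≠ u a' := by
  rw [Cell, Cell, h.us_a']
  constructor
  · rintro ⟨h1, h2⟩
    have h3 : r ≠ u a' := by
      intro h4
      rw [h4, h.symm_a] at h2
      exact absurd h.lt (not_lt.2 h2)
    refine ⟨⟨h1, ?_⟩, h3⟩
    by_cases h4 : r = u a
    · rw [h4]
      simp
    · rw [h.symm_ne h4 h3] at h2
      exact h.lt.le.trans h2
  · rintro ⟨⟨h1, h2⟩, h3⟩
    refine ⟨h1, ?_⟩
    by_cases h4 : r = u a
    · rw [h4, h.symm_a']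
    · rw [h.symm_ne h4 h3]
      exact h.ge (lt_of_le_of_ne h2 (fun h5 => h4 (by rw [h5]; simp)))

theorem LA.cell_aa' (h : LA u a a') : Cell u (u a') a :=
  ⟨h.asc.le, by simp [h.lt.le]⟩

theorem LA.cell_le (h : LA u a a') {r : Fin n} (hr : Cell u r a) : r ≤ u a' := by
  by_contra hcon
  rw [not_le] at hcon
  have h1 : r ≠ u a := by
    intro h2
    rw [h2] at hcon
    exact absurd h.asc (not_lt.2 hcon.le)
  have h2 : a < u.symm r := lt_of_le_of_ne hr.2 (fun h5 => h1 (by rw [h5]; simp))
  have h3 : a' < u.symm r :=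
    lt_of_le_of_ne (h.ge h2) (fun h5 => (ne_of_gt hcon) (by rw [h5]; simp))
  have h4 := h.anti a' (u.symm r) (le_refl _) h3
  rw [Equiv.apply_symm_apply] at h4
  exact absurd h4 (not_lt.2 hcon.le)

end

section

variable {u : Equiv.Perm (Fin n)} {I J : Finset (Fin n)} {σ : Fin n → Fin n}

/-- removing a matched pair -/
theorem LexMax.erase (h : LexMax u I J σ) {b : Fin n} (hb : b ∈ J) :
    LexMax u (I.erase (σ b)) (J.erase b) σ := by
  classical
  have hinj := h.bij.injOn
  refine ⟨⟨?_, fun c hc => h.cell c (Finset.mem_of_mem_erase hc)⟩, ?_⟩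
  · refine ⟨?_, ?_, ?_⟩
    · intro c hc
      rw [Finset.mem_coe, Finset.mem_erase] at hc ⊢
      refine ⟨fun h1 => hc.1 (hinj (Finset.mem_coe.2 hc.2) (Finset.mem_coe.2 hb) h1), ?_⟩
      exact_mod_cast h.bij.mapsTo (Finset.mem_coe.2 hc.2)
    · intro c hc d hd hcd
      exact hinj (Finset.mem_coe.2 (Finset.mem_of_mem_erase (Finset.mem_coe.1 hc)))
        (Finset.mem_coe.2 (Finset.mem_of_mem_erase (Finset.mem_coe.1 hd))) hcd
    · intro r hr
      rw [Finset.mem_coe, Finset.mem_erase] at hr
      obtain ⟨c, hc, hcr⟩ := h.bij.surjOn (Finset.mem_coe.2 hr.2)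
      refine ⟨c, ?_, hcr⟩
      rw [Finset.mem_coe, Finset.mem_erase]
      refine ⟨fun h1 => hr.1 (by rw [← hcr, h1]), Finset.mem_coe.1 hc⟩
  · intro τ hτ c hc hag
    rw [Finset.mem_erase] at hc
    have hτ' : Mat u I J (Function.update τ b (σ b)) := by
      refine ⟨⟨?_, ?_, ?_⟩, ?_⟩
      · intro d hd
        by_cases h1 : d = b
        · subst h1
          rw [Function.update_self]
          exact h.bij.mapsTo hd
        · rw [Function.update_of_ne h1]
          have h2 : d ∈ J.erase b := Finset.mem_erase.2 ⟨h1, Finset.mem_coe.1 hd⟩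
          have h3 := hτ.bij.mapsTo (Finset.mem_coe.2 h2)
          exact Finset.mem_coe.2 (Finset.mem_of_mem_erase (Finset.mem_coe.1 h3))
      · intro d hd e he hde
        by_cases h1 : d = b
        · by_cases h2 : e = b
          · rw [h1, h2]
          · exfalso
            rw [h1, Function.update_self, Function.update_of_ne h2] at hde
            have h3 : e ∈ J.erase b := Finset.mem_erase.2 ⟨h2, Finset.mem_coe.1 he⟩
            have h4 := Finset.mem_coe.1 (hτ.bij.mapsTo (Finset.mem_coe.2 h3))
            rw [← hde, Finset.mem_erase] at h4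
            exact h4.1 rfl
        · by_cases h2 : e = b
          · exfalso
            rw [h2, Function.update_self, Function.update_of_ne h1] at hde
            have h3 : d ∈ J.erase b := Finset.mem_erase.2 ⟨h1, Finset.mem_coe.1 hd⟩
            have h4 := Finset.mem_coe.1 (hτ.bij.mapsTo (Finset.mem_coe.2 h3))
            rw [hde, Finset.mem_erase] at h4
            exact h4.1 rfl
          · rw [Function.update_of_ne h1, Function.update_of_ne h2] at hde
            exact hτ.bij.injOn (Finset.mem_coe.2 (Finset.mem_erase.2 ⟨h1, Finset.mem_coe.1 hd⟩))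
              (Finset.mem_coe.2 (Finset.mem_erase.2 ⟨h2, Finset.mem_coe.1 he⟩)) hde
      · intro r hr
        by_cases h1 : r = σ b
        · exact ⟨b, Finset.mem_coe.2 hb, by rw [Function.update_self, h1]⟩
        · have h2 : r ∈ I.erase (σ b) := Finset.mem_erase.2 ⟨h1, Finset.mem_coe.1 hr⟩
          obtain ⟨d, hd, hdr⟩ := hτ.bij.surjOn (Finset.mem_coe.2 h2)
          rw [Finset.mem_coe, Finset.mem_erase] at hd
          exact ⟨d, Finset.mem_coe.2 hd.2, by rw [Function.update_of_ne hd.1, hdr]⟩
      · intro d hd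
        by_cases h1 : d = b
        · subst h1
          rw [Function.update_self]
          exact h.cell d hd
        · rw [Function.update_of_ne h1]
          exact hτ.cell d (Finset.mem_erase.2 ⟨h1, hd⟩)
    have h1 := h.max _ hτ' c hc.2 (by
      intro c' hc' hlt
      by_cases h2 : c' = b
      · rw [h2, Function.update_self]
      · rw [Function.update_of_ne h2]
        exact hag c' (Finset.mem_erase.2 ⟨h2, hc'⟩) hlt)
    rwa [Function.update_of_ne hc.1] at h1

end

end Pool.Agent.H29.KL
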