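import Pool.Agent.H29.KL.Comb

/-!
# Gröbner tool for Kazhdan–Lusztig ideals: points of the chart `u` (MP_a7460d_ag)
-/

namespace Pool.Agent.H29.KL

open Pool.Agent.H30.KL

variable {n : ℕ}

/-- the point of the chart `u`; a variable is given by its row and the value of the dot of its
column -/
def Zp (u : Equiv.Perm (Fin n)) (ξ : Fin n → Fin n → ℂ) : Matrix (Fin n) (Fin n) ℂ :=
  fun r c => if u c < r ∧ c < u.symm r then ξ r (u c) else if u c = r then 1 else 0

/-- the rows `≥ i` and the columns `≤ j` -/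
def trunc (i j : Fin n) (M : Matrix (Fin n) (Fin n) ℂ) : Matrix (Fin n) (Fin n) ℂ :=
  fun r c => if i ≤ r ∧ c ≤ j then M r c else 0

/-- `M` satisfies the rank conditions of `v` -/
def XV (v : Equiv.Perm (Fin n)) (M : Matrix (Fin n) (Fin n) ℂ) : Prop :=
  ∀ i j, (trunc i j M).rank ≤ rk v i j

/-- replace the variable `(ρ, α)` -/
def upd (ξ : Fin n → Fin n → ℂ) (ρ α : Fin n) (z : ℂ) : Fin n → Fin n → ℂ :=
  fun r x => if r = ρ ∧ x = α then z else ξ r x

theorem trunc_mul (i j : Fin n) (M G T : Matrix (Fin n) (Fin n) ℂ) (hG : ∀ x y, y < x → G x y = 0)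
    (hT : ∀ x y, y < x → T x y = 0) :
    trunc i j (G * M * T) = (Matrix.of fun x y => if i ≤ x then G x y else 0) * trunc i j M *
      (Matrix.of fun x y => if y ≤ j then T x y else 0) := by
  ext r c
  simp only [trunc, Matrix.mul_apply, Matrix.of_apply]
  by_cases hr : i ≤ r
  · by_cases hc : c ≤ j
    · rw [if_pos ⟨hr, hc⟩]
      apply Finset.sum_congr rfl
      intro y _
      rw [if_pos hc]
      by_cases hy : y ≤ j
      · congr 1
        apply Finset.sum_congr rfl
        intro x _
        rw [if_pos hr]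
        by_cases hx : i ≤ x
        · rw [if_pos ⟨hx, hy⟩]
        · rw [hG r x (lt_of_lt_of_le (not_le.1 hx) hr)]
          simp
      · rw [hT y c (lt_of_le_of_lt hc (not_le.1 hy))]
        simp
    · rw [if_neg (fun h => hc h.2)]
      symm
      apply Finset.sum_eq_zero
      intro y _
      rw [if_neg hc, mul_zero]
  · rw [if_neg (fun h => hr h.1)]
    symm
    apply Finset.sum_eq_zero
    intro y _
    rw [Finset.sum_eq_zero, zero_mul]
    intro x _
    rw [if_neg hr, zero_mul]

theorem XV.mul {v : Equiv.Perm (Fin n)} {M G T : Matrix (Fin n) (Fin n) ℂ} (h : XV v M)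
    (hG : ∀ x y, y < x → G x y = 0) (hT : ∀ x y, y < x → T x y = 0) : XV v (G * M * T) := by
  intro i j
  rw [trunc_mul i j M G T hG hT]
  exact (Matrix.rank_mul_le_left _ _).trans ((Matrix.rank_mul_le_right _ _).trans (h i j))

end Pool.Agent.H29.KL
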