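import Pool.Agent.H29.KL.Bad
import Pool.Agent.H29.KL.Pts

/-!
# Gröbner tool for Kazhdan–Lusztig ideals: induction on the chart (MP_a7460d_ag)
-/

namespace Pool.Agent.H29.KL

open Pool.Agent.H30.KL

variable {n : ℕ} {u v : Equiv.Perm (Fin n)} {a a' : Fin n}

/-- the polynomial ring of all charts; variables `(row, value of the dot of the column)` -/
abbrev Pol (n : ℕ) : Type := MvPolynomial (Fin n × Fin n) ℂ

/-- evaluation -/
noncomputable def ev (ξ : Fin n → Fin n → ℂ) (h : Pol n) : ℂ :=
  MvPolynomial.eval (fun p : Fin n × Fin n => ξ p.1 p.2) h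

theorem ev_eq (ξ : Fin n → Fin n → ℂ) (h : Pol n) :
    ev ξ h = ∑ m ∈ h.support, h.coeff m * m.prod fun y k => ξ y.1 y.2 ^ k := by
  rw [ev, MvPolynomial.eval_eq]
  apply Finset.sum_congr rfl
  intro m _
  rw [Finsupp.prod]

/-- `h` vanishes at the points of the chart `u` which satisfy the rank conditions of `v` -/
def Van (u v : Equiv.Perm (Fin n)) (h : Pol n) : Prop :=
  ∀ ξ : Fin n → Fin n → ℂ, XV v (Zp u ξ) → ev ξ h = 0

/-- the coefficient of `x0 ^ d` -/
noncomputable def top (x0 : Fin n × Fin n) (d : ℕ) (h : Pol n) : Pol n :=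
  ∑ m ∈ h.support.filter fun m => m x0 = d, MvPolynomial.monomial (m.erase x0) (h.coeff m)

theorem ev_top (x0 : Fin n × Fin n) (d : ℕ) (h : Pol n) (ξ : Fin n → Fin n → ℂ) :
    ev ξ (top x0 d h) = ∑ m ∈ h.support.filter fun m => m x0 = d,
      h.coeff m * (m.erase x0).prod fun y k => ξ y.1 y.2 ^ k := by
  rw [ev, top, map_sum]
  apply Finset.sum_congr rfl
  intro m _
  rw [MvPolynomial.eval_monomial]

theorem coeff_top (x0 : Fin n × Fin n) (d : ℕ) (h : Pol n) (e : Fin n × Fin n →₀ ℕ) :
    (top x0 d h).coeff e = if e x0 = 0 then h.coeff (e + Finsupp.single x0 d) else 0 := by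
  classical
  rw [top, MvPolynomial.coeff_sum]
  simp only [MvPolynomial.coeff_monomial]
  split_ifs with h0
  · have h1 : ∀ m : Fin n × Fin n →₀ ℕ, m x0 = d → m.erase x0 = e → m = e + Finsupp.single x0 d := by
      intro m h2 h3
      rw [← h3, ← h2]
      exact (Finsupp.erase_add_single x0 m).symm
    rw [Finset.sum_eq_single (e + Finsupp.single x0 d)]
    · rw [if_pos]
      ext y
      by_cases hy : y = x0
      · rw [hy, Finsupp.erase_same, h0]
      · rw [Finsupp.erase_ne hy, Finsupp.add_apply, Finsupp.single_eq_of_ne hy, add_zero]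
    · intro m hm hne
      rw [Finset.mem_filter] at hm
      rw [if_neg]
      intro h2
      exact hne (h1 m hm.2 h2)
    · intro h2
      have h3 : e + Finsupp.single x0 d ∉ h.support := by
        intro h4
        apply h2
        rw [Finset.mem_filter]
        refine ⟨h4, ?_⟩
        rw [Finsupp.add_apply, Finsupp.single_eq_same, h0, zero_add]
      rw [MvPolynomial.notMem_support_iff.1 h3]
      simp
  · apply Finset.sum_eq_zero
    intro m _
    rw [if_neg]
    intro h2
    apply h0
    rw [← h2, Finsupp.erase_same]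

/-- the geometric input of step (ii) -/
def G1Geo (u : Equiv.Perm (Fin n)) (a a' : Fin n) : Prop :=
  ∀ ξ : Fin n → Fin n → ℂ, ∃ η : Fin n → Fin n → ℂ, ∀ t : ℂ, t ≠ 0 →
    ∃ G T : Matrix (Fin n) (Fin n) ℂ, (∀ x y, y < x → G x y = 0) ∧ (∀ x y, y < x → T x y = 0) ∧
      Zp u (fun r x => if r = u a' ∧ x = u a then t⁻¹ else ξ r x + t * η r x) =
        G * Zp (u * Equiv.swap a a') ξ * T

/-- the geometric input of step (i) -/
def G2Geo (u v : Equiv.Perm (Fin n)) (a a' : Fin n) : Prop :=
  ∀ ξ : Fin n → Fin n → ℂ, XV (dem v a a') (Zp (u * Equiv.swap a a') ξ) →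
    (∃ z : ℂ, XV v (Zp u (upd ξ (u a') (u a) z))) ∨ XV v (Zp (u * Equiv.swap a a') ξ)

theorem van_top (g1 : G1Geo u a a') {f : Pol n} {d : ℕ}
    (hd : ∀ m ∈ f.support, m (u a', u a) ≤ d) (hf : Van u v f) :
    Van (u * Equiv.swap a a') v (top (u a', u a) d f) := by
  classical
  intro ξ hξ
  obtain ⟨η, hη⟩ := g1 ξ
  set x0 : Fin n × Fin n := (u a', u a) with hx0
  let F : Polynomial ℂ := ∑ m ∈ f.support, Polynomial.C (f.coeff m) * (Polynomial.X ^ (d - m x0) *
    (m.erase x0).prod fun y k =>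
      (Polynomial.C (ξ y.1 y.2) + Polynomial.X * Polynomial.C (η y.1 y.2)) ^ k)
  have hF : ∀ t : ℂ, F.eval t = ∑ m ∈ f.support, f.coeff m * (t ^ (d - m x0) *
      (m.erase x0).prod fun y k => (ξ y.1 y.2 + t * η y.1 y.2) ^ k) := by
    intro t
    simp only [F, Polynomial.eval_finsetSum, Polynomial.eval_mul, Polynomial.eval_C,
      Polynomial.eval_pow, Polynomial.eval_X]
    apply Finset.sum_congr rfl
    intro m _
    congr 2
    rw [Finsupp.prod, Finsupp.prod, Polynomial.eval_prod]
    apply Finset.prod_congr rfl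
    intro y _
    simp only [Polynomial.eval_pow, Polynomial.eval_add, Polynomial.eval_mul, Polynomial.eval_C,
      Polynomial.eval_X]
  have h1 : ∀ t : ℂ, t ≠ 0 → F.eval t = 0 := by
    intro t ht
    obtain ⟨G, T, hG, hT, hZ⟩ := hη t ht
    have h2 := hf _ (by rw [hZ]; exact hξ.mul hG hT)
    rw [ev_eq] at h2
    rw [hF]
    have h3 : ∀ m ∈ f.support, f.coeff m * (t ^ (d - m x0) *
        (m.erase x0).prod fun y k => (ξ y.1 y.2 + t * η y.1 y.2) ^ k) =
        t ^ d * (f.coeff m * m.prod fun y k =>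
          (if y.1 = u a' ∧ y.2 = u a then t⁻¹ else ξ y.1 y.2 + t * η y.1 y.2) ^ k) := by
      intro m hm
      rw [← Finsupp.mul_prod_erase' m x0 (fun y k =>
        (if y.1 = u a' ∧ y.2 = u a then t⁻¹ else ξ y.1 y.2 + t * η y.1 y.2) ^ k)
        (fun _ => pow_zero _)]
      rw [if_pos ⟨rfl, rfl⟩]
      have h4 : ((m.erase x0).prod fun y k =>
          (if y.1 = u a' ∧ y.2 = u a then t⁻¹ else ξ y.1 y.2 + t * η y.1 y.2) ^ k) =
          (m.erase x0).prod fun y k => (ξ y.1 y.2 + t * η y.1 y.2) ^ k := by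
        rw [Finsupp.prod, Finsupp.prod]
        apply Finset.prod_congr rfl
        intro y hy
        rw [if_neg]
        rintro ⟨h5, h6⟩
        rw [Finsupp.support_erase, Finset.mem_erase] at hy
        exact hy.1 (Prod.ext h5 h6)
      rw [h4]
      have h5 : t ^ d * t⁻¹ ^ (m x0) = t ^ (d - m x0) := by
        rw [inv_pow]
        exact (pow_sub₀ t ht (hd m hm)).symm
      rw [← h5]
      ring
    rw [Finset.sum_congr rfl h3, ← Finset.mul_sum, h2, mul_zero]
  have h2 : F = 0 := by
    apply Polynomial.eq_zero_of_infinite_isRoot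
    apply Set.Infinite.mono (s := {t : ℂ | t ≠ 0})
    · intro t ht
      exact h1 t ht
    · exact (Set.finite_singleton (0 : ℂ)).infinite_compl
  have h3 : F.eval 0 = 0 := by rw [h2, Polynomial.eval_zero]
  rw [hF] at h3
  rw [ev_top, ← h3, Finset.sum_filter]
  apply Finset.sum_congr rfl
  intro m hm
  split_ifs with h4
  · rw [h4, Nat.sub_self, pow_zero, one_mul]
    simp
  · rw [zero_pow, zero_mul, mul_zero]
    have := hd m hm
    omega

theorem ev_top_zero (x0 : Fin n × Fin n) {f : Pol n} (hd : ∀ m ∈ f.support, m x0 = 0)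
    (ξ : Fin n → Fin n → ℂ) (z : ℂ) : ev ξ (top x0 0 f) = ev (upd ξ x0.1 x0.2 z) f := by
  rw [ev_top, ev_eq, Finset.sum_filter]
  apply Finset.sum_congr rfl
  intro m hm
  rw [if_pos (hd m hm)]
  congr 1
  have h1 : m.erase x0 = m := by
    ext y
    by_cases hy : y = x0
    · rw [hy, Finsupp.erase_same, hd m hm]
    · rw [Finsupp.erase_ne hy]
  rw [h1, Finsupp.prod, Finsupp.prod]
  apply Finset.prod_congr rfl
  intro y hy
  rw [upd, if_neg]
  rintro ⟨h5, h6⟩
  have h7 : y = x0 := Prod.ext h5 h6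
  rw [h7, Finsupp.mem_support_iff] at hy
  exact hy (hd m hm)

theorem van_top_zero (g1 : G1Geo u a a') (g2 : G2Geo u v a a') {f : Pol n}
    (hd : ∀ m ∈ f.support, m (u a', u a) = 0) (hf : Van u v f) :
    Van (u * Equiv.swap a a') (dem v a a') (top (u a', u a) 0 f) := by
  intro ξ hξ
  rcases g2 ξ hξ with ⟨z, hz⟩ | h1
  · rw [ev_top_zero _ hd ξ z]
    exact hf _ hz
  · exact van_top g1 (fun m hm => (hd m hm).le) hf ξ h1

/-- the variables of the chart `u` -/
def Fr (u : Equiv.Perm (Fin n)) (x : Fin n × Fin n) : Prop :=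
  x.2 < x.1 ∧ u.symm x.2 < u.symm x.1

/-- `y` is larger than `x`: its column is further to the right, or it is lower in the same
column -/
def LtL (u : Equiv.Perm (Fin n)) (x y : Fin n × Fin n) : Prop :=
  u.symm x.2 < u.symm y.2 ∨ (x.2 = y.2 ∧ x.1 < y.1)

theorem swap_lt {a a' : Fin n} (hs : (a' : ℕ) = a + 1) {p q : Fin n} (h1 : ¬ (p = a ∧ q = a'))
    (h2 : ¬ (p = a' ∧ q = a)) : Equiv.swap a a' p < Equiv.swap a a' q ↔ p < q := by
  simp only [Fin.lt_def]
  have hpa : p = a ∨ p = a' ∨ (p ≠ a ∧ p ≠ a') := by tauto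
  have hqa : q = a ∨ q = a' ∨ (q ≠ a ∧ q ≠ a') := by tauto
  rcases hpa with hp | hp | ⟨hp, hp'⟩
  · rcases hqa with hq | hq | ⟨hq, hq'⟩
    · rw [hp, hq]
      simp
    · exact absurd ⟨hp, hq⟩ h1
    · rw [hp, Equiv.swap_apply_left, Equiv.swap_apply_of_ne_of_ne hq hq']
      have := fun h => hq (Fin.ext h)
      have := fun h => hq' (Fin.ext h)
      omega
  · rcases hqa with hq | hq | ⟨hq, hq'⟩
    · exact absurd ⟨hp, hq⟩ h2
    · rw [hp, hq]
      simp
    · rw [hp, Equiv.swap_apply_right, Equiv.swap_apply_of_ne_of_ne hq hq']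
      have := fun h => hq (Fin.ext h)
      have := fun h => hq' (Fin.ext h)
      omega
  · have h3 := fun h => hp (Fin.ext h)
    have h4 := fun h => hp' (Fin.ext h)
    rw [Equiv.swap_apply_of_ne_of_ne hp hp']
    rcases hqa with hq | hq | ⟨hq, hq'⟩
    · rw [hq, Equiv.swap_apply_left]
      omega
    · rw [hq, Equiv.swap_apply_right]
      omega
    · rw [Equiv.swap_apply_of_ne_of_ne hq hq']

theorem symm_swap (u : Equiv.Perm (Fin n)) (a a' r : Fin n) :
    (u * Equiv.swap a a').symm r = Equiv.swap a a' (u.symm r) := by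
  rw [Equiv.symm_apply_eq, Equiv.Perm.mul_apply, Equiv.swap_apply_self]
  simp

theorem LA.fr_swap (h : LA u a a') {x : Fin n × Fin n} :
    Fr (u * Equiv.swap a a') x ↔ Fr u x ∧ x ≠ (u a', u a) := by
  obtain ⟨r, α⟩ := x
  simp only [Fr, symm_swap]
  constructor
  · rintro ⟨h1, h2⟩
    have h3 : ¬ (u.symm α = a ∧ u.symm r = a') := by
      rintro ⟨h3, h4⟩
      rw [h3, h4, Equiv.swap_apply_left, Equiv.swap_apply_right] at h2
      exact absurd h.lt (not_lt.2 h2.le)
    have h4 : ¬ (u.symm α = a' ∧ u.symm r = a) := by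
      rintro ⟨h4, h5⟩
      rw [Equiv.symm_apply_eq] at h4 h5
      rw [h4, h5] at h1
      exact absurd h.asc (not_lt.2 h1.le)
    refine ⟨⟨h1, (swap_lt h.succ h3 h4).1 h2⟩, ?_⟩
    intro h5
    rw [Prod.mk.injEq] at h5
    apply h3
    rw [h5.1, h5.2]
    simp
  · rintro ⟨⟨h1, h2⟩, h3⟩
    refine ⟨h1, (swap_lt h.succ ?_ ?_).2 h2⟩
    · rintro ⟨h4, h5⟩
      rw [Equiv.symm_apply_eq] at h4 h5
      exact h3 (by rw [h4, h5])
    · rintro ⟨h4, h5⟩
      rw [h4, h5] at h2
      exact absurd h.lt (not_lt.2 h2.le)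

/-- the columns right of `a` have no variables -/
theorem LA.fr_le (h : LA u a a') {x : Fin n × Fin n} (hx : Fr u x) : u.symm x.2 ≤ a := by
  by_contra hcon
  rw [not_le] at hcon
  have h1 := h.anti _ _ (h.ge hcon) hx.2
  rw [Equiv.apply_symm_apply, Equiv.apply_symm_apply] at h1
  exact absurd hx.1 (not_lt.2 h1.le)

theorem LA.fr_max (h : LA u a a') {y : Fin n × Fin n} (hy : Fr u y) : ¬ LtL u (u a', u a) y := by
  rintro (h1 | ⟨h1, h2⟩)
  · rw [Equiv.symm_apply_apply] at h1
    exact absurd (h.fr_le hy) (not_le.2 h1)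
  · dsimp only at h1 h2
    have h3 : Cell u y.1 a := by
      refine ⟨h1 ▸ hy.1.le, ?_⟩
      have h4 := hy.2.le
      rw [← h1, Equiv.symm_apply_apply] at h4
      exact h4
    exact absurd (h.cell_le h3) (not_le.2 h2)

theorem LA.ltL (h : LA u a a') {x y : Fin n × Fin n} (hx : Fr u x) (hy : Fr u y)
    (hxy : LtL u x y) : LtL (u * Equiv.swap a a') x y := by
  rcases hxy with h1 | h1
  · left
    rw [symm_swap, symm_swap]
    have h2 := h.fr_le hx
    have h3 := h.fr_le hy
    refine (swap_lt h.succ ?_ ?_).2 h1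
    · rintro ⟨_, h5⟩
      rw [h5] at h3
      exact absurd h.lt (not_lt.2 h3)
    · rintro ⟨h4, _⟩
      rw [h4] at h2
      exact absurd h.lt (not_lt.2 h2)
  · right
    exact h1

/-- `m` is the lexicographically largest exponent of `f` -/
structure Lead (u : Equiv.Perm (Fin n)) (f : Pol n) (m : Fin n × Fin n →₀ ℕ) : Prop where
  fr : ∀ m' ∈ f.support, ∀ x, m' x ≠ 0 → Fr u x
  mem : m ∈ f.support
  max : ∀ m' ∈ f.support, ∀ x, (∀ y, LtL u x y → m' y = m y) → m' x ≤ m x

theorem Lead.top_le {f : Pol n} {m : Fin n × Fin n →₀ ℕ} (hm : Lead u f m) (h : LA u a a') :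
    ∀ m' ∈ f.support, m' (u a', u a) ≤ m (u a', u a) := by
  intro m' hm'
  apply hm.max m' hm'
  intro y hy
  have h1 : ¬ Fr u y := fun h1 => h.fr_max h1 hy
  have h2 : m' y = 0 := by
    by_contra h3
    exact h1 (hm.fr m' hm' y h3)
  have h3 : m y = 0 := by
    by_contra h3
    exact h1 (hm.fr m hm.mem y h3)
  rw [h2, h3]

theorem Lead.top {f : Pol n} {m : Fin n × Fin n →₀ ℕ} (hm : Lead u f m) (h : LA u a a') :
    Lead (u * Equiv.swap a a') (top (u a', u a) (m (u a', u a)) f) (m.erase (u a', u a)) := by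
  classical
  set x0 : Fin n × Fin n := (u a', u a) with hx0
  have hsupp : ∀ m'' ∈ (KL.top x0 (m x0) f).support,
      m'' x0 = 0 ∧ m'' + Finsupp.single x0 (m x0) ∈ f.support := by
    intro m'' hm''
    rw [MvPolynomial.mem_support_iff, coeff_top] at hm''
    split_ifs at hm'' with h1
    · exact ⟨h1, MvPolynomial.mem_support_iff.2 hm''⟩
    · exact absurd rfl hm''
  have hfr : ∀ m'' ∈ (KL.top x0 (m x0) f).support, ∀ x, m'' x ≠ 0 →
      Fr (u * Equiv.swap a a') x := by
    intro m'' hm'' x hx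
    obtain ⟨h1, h2⟩ := hsupp m'' hm''
    rw [h.fr_swap]
    refine ⟨hm.fr _ h2 x ?_, ?_⟩
    · rw [Finsupp.add_apply]
      omega
    · intro h3
      rw [h3] at hx
      exact hx h1
  have herase : m.erase x0 + Finsupp.single x0 (m x0) = m := Finsupp.erase_add_single x0 m
  refine ⟨hfr, ?_, ?_⟩
  · rw [MvPolynomial.mem_support_iff, coeff_top, if_pos Finsupp.erase_same, herase]
    exact MvPolynomial.mem_support_iff.1 hm.mem
  · intro m'' hm'' x hx
    obtain ⟨h1, h2⟩ := hsupp m'' hm''
    by_cases h3 : m'' x = 0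
    · rw [h3]
      exact Nat.zero_le _
    have hxfr := hfr m'' hm'' x h3
    have hxfr' := (h.fr_swap.1 hxfr).1
    have hxne : x ≠ x0 := (h.fr_swap.1 hxfr).2
    have h4 := hm.max _ h2 x (by
      intro y hy
      by_cases hyx : y = x0
      · rw [hyx, Finsupp.add_apply, h1, Finsupp.single_eq_same, zero_add]
      · rw [Finsupp.add_apply, Finsupp.single_eq_of_ne hyx, add_zero]
        by_cases hyf : Fr u y
        · have h5 := hx y (h.ltL hxfr' hyf hy)
          rw [h5, Finsupp.erase_ne hyx]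
        · have h6 : m'' y = 0 := by
            by_contra h7
            exact hyf (h.fr_swap.1 (hfr m'' hm'' y h7)).1
          have h7 : m y = 0 := by
            by_contra h8
            exact hyf (hm.fr m hm.mem y h8)
          rw [h6, h7])
    rw [Finsupp.add_apply, Finsupp.single_eq_of_ne hxne, add_zero] at h4
    rw [Finsupp.erase_ne hxne]
    exact h4

/-- number of variables of the chart -/
noncomputable def nfr (u : Equiv.Perm (Fin n)) : ℕ := by
  classical
  exact (Finset.univ.filter fun x : Fin n × Fin n => Fr u x).card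

theorem LA.nfr_lt (h : LA u a a') : nfr (u * Equiv.swap a a') < nfr u := by
  classical
  rw [nfr, nfr]
  apply Finset.card_lt_card
  rw [Finset.ssubset_iff_of_subset]
  · refine ⟨(u a', u a), ?_, ?_⟩
    · rw [Finset.mem_filter]
      refine ⟨Finset.mem_univ _, h.asc, ?_⟩
      simp [h.lt]
    · rw [Finset.mem_filter, h.fr_swap]
      tauto
  · intro x hx
    rw [Finset.mem_filter] at hx ⊢
    exact ⟨hx.1, (h.fr_swap.1 hx.2).1⟩

theorem xv_perm {u v : Equiv.Perm (Fin n)} (h : BruhatLE u v) : XV v (Zp u 0) := by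
  classical
  intro i j
  have h1 : trunc i j (Zp u 0) = (Matrix.of fun r c => if u c = r then (1 : ℂ) else 0) *
      Matrix.diagonal (fun c => if c ≤ j ∧ i ≤ u c then (1 : ℂ) else 0) := by
    ext r c
    rw [Matrix.mul_diagonal, Matrix.of_apply]
    by_cases h2 : u c = r
    · have h3 : Zp u 0 r c = 1 := by
        rw [Zp, if_neg (fun h3 => (ne_of_lt h3.1) h2), if_pos h2]
      rw [if_pos h2, one_mul, h2, trunc, h3]
      by_cases h4 : i ≤ r ∧ c ≤ j
      · rw [if_pos h4, if_pos ⟨h4.2, h4.1⟩]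
      · rw [if_neg h4, if_neg (fun h5 => h4 ⟨h5.2, h5.1⟩)]
    · have h3 : Zp u 0 r c = 0 := by
        rw [Zp, if_neg h2]
        split_ifs
        · rfl
        · rfl
      rw [if_neg h2, zero_mul, trunc, h3]
      split_ifs
      · rfl
      · rfl
  rw [h1]
  refine (Matrix.rank_mul_le_right _ _).trans ?_
  rw [Matrix.rank_diagonal]
  refine le_trans ?_ (h i j)
  rw [rk, Fintype.card_subtype]
  apply Finset.card_le_card
  intro c hc
  rw [Finset.mem_filter] at hc ⊢
  refine ⟨hc.1, ?_⟩
  by_contra h2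
  exact hc.2 (if_neg h2)

theorem gb (g1 : ∀ u : Equiv.Perm (Fin n), ∀ a a', LA u a a' → G1Geo u a a')
    (g2 : ∀ u v : Equiv.Perm (Fin n), ∀ a a', LA u a a' → G2Geo u v a a') :
    ∀ (N : ℕ) (u v : Equiv.Perm (Fin n)) (f : Pol n) (m : Fin n × Fin n →₀ ℕ), nfr u ≤ N →
      Lead u f m → Van u v f → Bad u v (fun r α => m (r, α) ≠ 0) := by
  intro N
  induction N with
  | zero =>
    intro u v f m hN hm hf
    rcases exists_LA u with h0 | ⟨a, a', h⟩
    · by_cases hle : BruhatLE u v
      · exfalso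
        have h1 := hf 0 (xv_perm hle)
        have hfr : ∀ m' ∈ f.support, m' = 0 := by
          intro m' hm'
          ext x
          by_contra h2
          have h3 := hm.fr m' hm' x h2
          have h4 := h0 _ _ h3.2
          rw [Equiv.apply_symm_apply, Equiv.apply_symm_apply] at h4
          exact absurd h3.1 (not_lt.2 h4.le)
        have h2 : f.support = {0} := by
          ext m'
          rw [Finset.mem_singleton]
          refine ⟨hfr m', ?_⟩
          rintro rfl
          rw [← hfr m hm.mem]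
          exact hm.mem
        rw [ev_eq, h2, Finset.sum_singleton, Finsupp.prod_zero_index, mul_one] at h1
        have h3 : (0 : Fin n × Fin n →₀ ℕ) ∈ f.support := by
          rw [h2]
          exact Finset.mem_singleton_self _
        exact MvPolynomial.mem_support_iff.1 h3 h1
      · rw [BruhatLE] at hle
        push Not at hle
        obtain ⟨i, j, hij⟩ := hle
        exact bad_of_not_le hij
    · have := h.nfr_lt
      omega
  | succ N ih =>
    intro u v f m hN hm hf
    by_cases h0 : nfr u ≤ N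
    · exact ih u v f m h0 hm hf
    rcases exists_LA u with h1 | ⟨a, a', h⟩
    · exfalso
      apply h0
      have h2 : nfr u = 0 := by
        classical
        rw [nfr, Finset.card_eq_zero, Finset.filter_eq_empty_iff]
        intro x _ hx
        have h4 := h1 _ _ hx.2
        rw [Equiv.apply_symm_apply, Equiv.apply_symm_apply] at h4
        exact absurd hx.1 (not_lt.2 h4.le)
      omega
    · have h2 := h.nfr_lt
      by_cases hd : m (u a', u a) = 0
      · have h3 : ∀ m' ∈ f.support, m' (u a', u a) = 0 := by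
          intro m' hm'
          have := hm.top_le h m' hm'
          omega
        have h4 := hm.top h
        rw [hd] at h4
        have h5 := ih _ (dem v a a') _ _ (by omega) h4
          (van_top_zero (g1 u a a' h) (g2 u v a a' h) h3 hf)
        have h6 : m.erase (u a', u a) = m := by
          ext y
          by_cases hy : y = (u a', u a)
          · rw [hy, Finsupp.erase_same, hd]
          · rw [Finsupp.erase_ne hy]
        rw [h6] at h5
        exact h.bad_of_dem h5
      · have h5 := ih _ v _ _ (by omega) (hm.top h) (van_top (g1 u a a' h) (hm.top_le h) hf)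
        refine h.bad_of_mem ?_ hd h5
        intro r α h6
        by_cases hy : (r, α) = (u a', u a)
        · rw [hy]
          exact hd
        · rw [Finsupp.erase_ne hy] at h6
          exact h6

end Pool.Agent.H29.KL
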