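import Pool.Agent.H29.KL.Comb

/-!
# Gröbner tool for Kazhdan–Lusztig ideals: the two combinatorial steps (MP_a7460d_ag)
-/

namespace Pool.Agent.H29.KL

open Pool.Agent.H30.KL

variable {n : ℕ} {u v : Equiv.Perm (Fin n)} {a a' : Fin n} {I J : Finset (Fin n)}
  {σ : Fin n → Fin n}

/-- both columns or none -/
theorem LA.transfer_none (h : LA u a a') (ha : a ∉ J) (ha' : a' ∉ J)
    (hσ : LexMax (u * Equiv.swap a a') I J σ) : LexMax u I J σ := by
  have hne : ∀ c ∈ J, c ≠ a ∧ c ≠ a' := fun c hc =>
    ⟨fun h1 => ha (h1 ▸ hc), fun h1 => ha' (h1 ▸ hc)⟩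
  refine ⟨⟨hσ.bij, fun c hc => (h.cell_other (hne c hc).1 (hne c hc).2).1 (hσ.cell c hc)⟩, ?_⟩
  intro τ hτ c hc hag
  exact hσ.max τ ⟨hτ.bij, fun c hc => (h.cell_other (hne c hc).1 (hne c hc).2).2 (hτ.cell c hc)⟩
    c hc hag

theorem bijOn_swap {I J : Finset (Fin n)} {σ : Fin n → Fin n} (h : Set.BijOn σ ↑J ↑I)
    {b c : Fin n} (hb : b ∈ J) (hc : c ∈ J) :
    Set.BijOn (fun x => σ (Equiv.swap b c x)) ↑J ↑I := by
  have h1 : Set.BijOn (Equiv.swap b c) (↑J : Set (Fin n)) ↑J := by
    refine ⟨?_, (Equiv.injective _).injOn, ?_⟩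
    · intro x hx
      by_cases h2 : x = b
      · rw [h2, Equiv.swap_apply_left]
        exact hc
      by_cases h3 : x = c
      · rw [h3, Equiv.swap_apply_right]
        exact hb
      rwa [Equiv.swap_apply_of_ne_of_ne h2 h3]
    · intro x hx
      refine ⟨Equiv.swap b c x, ?_, by simp⟩
      by_cases h2 : x = b
      · rw [h2, Equiv.swap_apply_left]
        exact hc
      by_cases h3 : x = c
      · rw [h3, Equiv.swap_apply_right]
        exact hb
      rwa [Equiv.swap_apply_of_ne_of_ne h2 h3]
  exact h.comp h1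

/-- both columns -/
theorem LA.transfer_both (h : LA u a a') (ha : a ∈ J) (ha' : a' ∈ J)
    (hσ : LexMax (u * Equiv.swap a a') I J σ) :
    LexMax u I J (fun x => σ (Equiv.swap a a' x)) := by
  have hσa : σ a = u a' := h.cell_a.1 (hσ.cell a ha)
  have hcell : ∀ τ : Fin n → Fin n, (∀ c ∈ J, Cell (u * Equiv.swap a a') (τ c) c) →
      ∀ c ∈ J, Cell u (τ (Equiv.swap a a' c)) c := by
    intro τ hτ c hc
    by_cases h1 : c = a
    · rw [h1, Equiv.swap_apply_left]
      exact (h.cell_a'.1 (hτ a' ha')).1
    by_cases h2 : c = a'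
    · rw [h2, Equiv.swap_apply_right, h.cell_a.1 (hτ a ha)]
      exact ⟨le_refl _, by simp⟩
    rw [Equiv.swap_apply_of_ne_of_ne h1 h2]
    exact (h.cell_other h1 h2).1 (hτ c hc)
  refine ⟨⟨bijOn_swap hσ.bij ha ha', hcell σ hσ.cell⟩, ?_⟩
  intro τ hτ c hc hag
  have hτa' : τ a' = u a' := (h.cell_right h.lt).1 (hτ.cell a' ha')
  have hτa : τ a ≠ u a' := by
    intro h1
    rw [← hτa'] at h1
    exact h.ne (hτ.bij.injOn (Finset.mem_coe.2 ha) (Finset.mem_coe.2 ha') h1)
  have hτ' : Mat (u * Equiv.swap a a') I J (fun x => τ (Equiv.swap a a' x)) := by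
    refine ⟨bijOn_swap hτ.bij ha ha', ?_⟩
    intro d hd
    try dsimp only
    by_cases h1 : d = a
    · rw [h1, Equiv.swap_apply_left, hτa']
      exact h.cell_a.2 rfl
    by_cases h2 : d = a'
    · rw [h2, Equiv.swap_apply_right]
      exact h.cell_a'.2 ⟨hτ.cell a ha, hτa⟩
    rw [Equiv.swap_apply_of_ne_of_ne h1 h2]
    exact (h.cell_other h1 h2).2 (hτ.cell d hd)
  by_cases h1 : c = a'
  · rw [h1]
    try dsimp only
    rw [Equiv.swap_apply_right, hσa, hτa']
  have hag' : ∀ e ∈ J, Equiv.swap a a' c < e → c ≠ a → τ (Equiv.swap a a' e) = σ e := by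
    intro e he hlt hca
    rw [Equiv.swap_apply_of_ne_of_ne hca h1] at hlt
    by_cases h2 : e = a
    · rw [h2, Equiv.swap_apply_left, hτa', hσa]
    by_cases h3 : e = a'
    · rw [h3, Equiv.swap_apply_right]
      have h4 : c < a := by
        rw [h3] at hlt
        by_contra h5
        rw [not_lt] at h5
        exact absurd (h.ge (lt_of_le_of_ne h5 (Ne.symm hca))) (not_le.2 hlt)
      have h5 := hag a ha h4
      try dsimp only at h5
      rwa [Equiv.swap_apply_left] at h5
    · have h5 := hag e he hlt
      try dsimp only at h5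
      rw [Equiv.swap_apply_of_ne_of_ne h2 h3] at h5 ⊢
      exact h5
  by_cases h2 : c = a
  · have h3 := hσ.max _ hτ' a' ha' (by
      intro e he hlt
      have h4 : e ≠ a := fun h5 => absurd hlt (not_lt.2 (h5 ▸ h.lt.le))
      have h5 : e ≠ a' := fun h6 => absurd hlt (not_lt.2 (h6 ▸ le_refl _))
      have h6 := hag e he (by rw [h2]; exact h.lt.trans hlt)
      try dsimp only at h6 ⊢
      rw [Equiv.swap_apply_of_ne_of_ne h4 h5] at h6 ⊢
      exact h6)
    try dsimp only at h3 ⊢
    rw [Equiv.swap_apply_right] at h3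
    rw [h2, Equiv.swap_apply_left]
    exact h3
  · have h3 := hσ.max _ hτ' c hc (by
      intro e he hlt
      apply hag' e he _ h2
      rwa [Equiv.swap_apply_of_ne_of_ne h2 h1])
    try dsimp only at h3 ⊢
    rw [Equiv.swap_apply_of_ne_of_ne h2 h1] at h3 ⊢
    exact h3

/-- only column `a`, for `u` with the cell `(u a', a)` -/
theorem LA.transfer_a (h : LA u a a') (ha : a ∈ J) (ha' : a' ∉ J)
    (hσ : LexMax (u * Equiv.swap a a') I J σ) : LexMax u I J σ := by
  have hσa : σ a = u a' := h.cell_a.1 (hσ.cell a ha)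
  refine ⟨⟨hσ.bij, ?_⟩, ?_⟩
  · intro c hc
    by_cases h1 : c = a
    · rw [h1, hσa]
      exact h.cell_aa'
    · exact (h.cell_other h1 (fun h2 => ha' (h2 ▸ hc))).1 (hσ.cell c hc)
  · intro τ hτ c hc hag
    rcases lt_trichotomy c a with h1 | h1 | h1
    · have h2 : τ a = u a' := by rw [hag a ha h1, hσa]
      apply hσ.max τ _ c hc hag
      refine ⟨hτ.bij, ?_⟩
      intro d hd
      by_cases h3 : d = a
      · rw [h3, h2]
        exact h.cell_a.2 rfl
      · exact (h.cell_other h3 (fun h2 => ha' (h2 ▸ hd))).2 (hτ.cell d hd)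
    · rw [h1, hσa]
      exact h.cell_le (hτ.cell a ha)
    · have h2 := (h.cell_right h1).1 (hτ.cell c hc)
      have h3 := (h.cell_other (ne_of_gt h1) (fun h2 => ha' (h2 ▸ hc))).1 (hσ.cell c hc)
      rw [h2]
      exact h3.1

/-- replace a column: `J = insert b K`, `J' = insert d K` -/
theorem bijOn_replace {K : Finset (Fin n)} {b d : Fin n} {τ τ' : Fin n → Fin n}
    (hb : b ∉ K) (_hd : d ∉ K)
    (h : Set.BijOn τ ↑(insert b K) ↑I) (h1 : τ' d = τ b) (h2 : ∀ c ∈ K, τ' c = τ c) :
    Set.BijOn τ' ↑(insert d K) ↑I := by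
  have hK : ∀ c ∈ K, c ∈ (insert b K) := fun c hc => Finset.mem_insert_of_mem hc
  refine ⟨?_, ?_, ?_⟩
  · intro c hc
    rw [Finset.mem_coe, Finset.mem_insert] at hc
    rcases hc with hc | hc
    · rw [hc, h1]
      exact h.mapsTo (Finset.mem_coe.2 (Finset.mem_insert_self _ _))
    · rw [h2 c hc]
      exact h.mapsTo (Finset.mem_coe.2 (hK c hc))
  · intro c hc e he hce
    rw [Finset.mem_coe, Finset.mem_insert] at hc he
    rcases hc with hc | hc <;> rcases he with he | he
    · rw [hc, he]
    · exfalso
      rw [hc, h1, h2 e he] at hce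
      have h3 := h.injOn (Finset.mem_coe.2 (Finset.mem_insert_self _ _))
        (Finset.mem_coe.2 (hK e he)) hce
      exact hb (h3 ▸ he)
    · exfalso
      rw [he, h1, h2 c hc] at hce
      have h3 := h.injOn (Finset.mem_coe.2 (hK c hc))
        (Finset.mem_coe.2 (Finset.mem_insert_self _ _)) hce
      exact hb (h3 ▸ hc)
    · rw [h2 c hc, h2 e he] at hce
      exact h.injOn (Finset.mem_coe.2 (hK c hc)) (Finset.mem_coe.2 (hK e he)) hce
  · intro r hr
    obtain ⟨c, hc, hcr⟩ := h.surjOn hr
    rw [Finset.mem_coe, Finset.mem_insert] at hc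
    rcases hc with hc | hc
    · exact ⟨d, Finset.mem_coe.2 (Finset.mem_insert_self _ _), by rw [h1, ← hc, hcr]⟩
    · exact ⟨c, Finset.mem_coe.2 (Finset.mem_insert_of_mem hc), by rw [h2 c hc, hcr]⟩

/-- only column `a` in the frame of `u s`: use the column `a'` of `u` -/
theorem LA.transfer_a_to_a' (h : LA u a a') (ha : a ∈ J) (ha' : a' ∉ J)
    (hσ : LexMax (u * Equiv.swap a a') I J σ) :
    LexMax u I (insert a' (J.erase a)) (Function.update σ a' (u a')) := by
  classical
  have hσa : σ a = u a' := h.cell_a.1 (hσ.cell a ha)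
  have haK : a ∉ J.erase a := Finset.notMem_erase a J
  have ha'K : a' ∉ J.erase a := fun h1 => ha' (Finset.mem_of_mem_erase h1)
  have hins : insert a (J.erase a) = J := Finset.insert_erase ha
  have hup : ∀ (τ : Fin n → Fin n) (x : Fin n), ∀ c ∈ J.erase a,
      Function.update τ a' x c = τ c := by
    intro τ x c hc
    exact Function.update_of_ne (show c ≠ a' from fun h1 => ha'K (h1 ▸ hc)) _ _
  refine ⟨⟨?_, ?_⟩, ?_⟩
  · apply bijOn_replace haK ha'K (τ := σ) (by rw [hins]; exact hσ.bij)
    · rw [Function.update_self, hσa]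
    · exact hup σ _
  · intro c hc
    rw [Finset.mem_insert] at hc
    rcases hc with hc | hc
    · rw [hc, Function.update_self]
      exact ⟨le_refl _, by simp⟩
    · rw [hup σ _ c hc]
      rw [Finset.mem_erase] at hc
      exact (h.cell_other hc.1 (fun h2 => ha' (h2 ▸ hc.2))).1 (hσ.cell c hc.2)
  · intro τ hτ c hc hag
    have hτa' : τ a' = u a' :=
      (h.cell_right h.lt).1 (hτ.cell a' (Finset.mem_insert_self _ _))
    have hτ' : Mat (u * Equiv.swap a a') I J (Function.update τ a (u a')) := by
      refine ⟨?_, ?_⟩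
      · rw [← hins]
        apply bijOn_replace ha'K haK (τ := τ) hτ.bij
        · rw [Function.update_self, hτa']
        · intro c hc
          exact Function.update_of_ne (show c ≠ a from fun h1 => haK (h1 ▸ hc)) _ _
      · intro c hc
        by_cases h1 : c = a
        · rw [h1, Function.update_self]
          exact h.cell_a.2 rfl
        · rw [Function.update_of_ne h1]
          exact (h.cell_other h1 (fun h2 => ha' (h2 ▸ hc))).2
            (hτ.cell c (Finset.mem_insert_of_mem (Finset.mem_erase.2 ⟨h1, hc⟩)))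
    rw [Finset.mem_insert] at hc
    rcases hc with hc | hc
    · rw [hc, Function.update_self, hτa']
    · rw [hup σ _ c hc]
      have hc' := Finset.mem_erase.1 hc
      have h3 := hσ.max _ hτ' c hc'.2 (by
        intro e he hlt
        by_cases h1 : e = a
        · rw [h1, Function.update_self, hσa]
        · rw [Function.update_of_ne h1]
          have h4 : e ∈ J.erase a := Finset.mem_erase.2 ⟨h1, he⟩
          rw [hag e (Finset.mem_insert_of_mem h4) hlt, hup σ _ e h4])
      rwa [Function.update_of_ne hc'.1] at h3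

/-- only column `a'` in the frame of `u s`, row `u a'` not used -/
theorem LA.transfer_a'_to_a (h : LA u a a') (ha : a ∉ J) (ha' : a' ∈ J) (hρ : u a' ∉ I)
    (hσ : LexMax (u * Equiv.swap a a') I J σ) :
    LexMax u I (insert a (J.erase a')) (Function.update σ a (σ a')) := by
  classical
  have haK : a ∉ J.erase a' := fun h1 => ha (Finset.mem_of_mem_erase h1)
  have ha'K : a' ∉ J.erase a' := Finset.notMem_erase a' J
  have hins : insert a' (J.erase a') = J := Finset.insert_erase ha'
  have hup : ∀ (τ : Fin n → Fin n) (x : Fin n), ∀ c ∈ J.erase a',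
      Function.update τ a x c = τ c := by
    intro τ x c hc
    exact Function.update_of_ne (show c ≠ a from fun h1 => haK (h1 ▸ hc)) _ _
  refine ⟨⟨?_, ?_⟩, ?_⟩
  · apply bijOn_replace ha'K haK (τ := σ) (by rw [hins]; exact hσ.bij)
    · rw [Function.update_self]
    · exact hup σ _
  · intro c hc
    rw [Finset.mem_insert] at hc
    rcases hc with hc | hc
    · rw [hc, Function.update_self]
      exact (h.cell_a'.1 (hσ.cell a' ha')).1
    · rw [hup σ _ c hc]
      rw [Finset.mem_erase] at hc
      exact (h.cell_other (fun h2 => ha (h2 ▸ hc.2)) hc.1).1 (hσ.cell c hc.2)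
  · intro τ hτ c hc hag
    have hτa : τ a ≠ u a' := by
      intro h1
      apply hρ
      rw [← h1]
      exact_mod_cast hτ.bij.mapsTo (Finset.mem_coe.2 (Finset.mem_insert_self a _))
    have hτ' : Mat (u * Equiv.swap a a') I J (Function.update τ a' (τ a)) := by
      refine ⟨?_, ?_⟩
      · rw [← hins]
        apply bijOn_replace haK ha'K (τ := τ) hτ.bij
        · rw [Function.update_self]
        · intro c hc
          exact Function.update_of_ne (show c ≠ a' from fun h1 => ha'K (h1 ▸ hc)) _ _
      · intro c hc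
        by_cases h1 : c = a'
        · rw [h1, Function.update_self]
          exact h.cell_a'.2 ⟨hτ.cell a (Finset.mem_insert_self _ _), hτa⟩
        · rw [Function.update_of_ne h1]
          exact (h.cell_other (fun h2 => ha (h2 ▸ hc)) h1).2
            (hτ.cell c (Finset.mem_insert_of_mem (Finset.mem_erase.2 ⟨h1, hc⟩)))
    rw [Finset.mem_insert] at hc
    rcases hc with hc | hc
    · rw [hc, Function.update_self]
      have h3 := hσ.max _ hτ' a' ha' (by
        intro e he hlt
        have h1 : e ≠ a' := ne_of_gt hlt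
        rw [Function.update_of_ne h1]
        have h4 : e ∈ J.erase a' := Finset.mem_erase.2 ⟨h1, he⟩
        rw [hag e (Finset.mem_insert_of_mem h4) (by rw [hc]; exact h.lt.trans hlt), hup σ _ e h4])
      rwa [Function.update_self] at h3
    · rw [hup σ _ c hc]
      have hc' := Finset.mem_erase.1 hc
      have h3 := hσ.max _ hτ' c hc'.2 (by
        intro e he hlt
        by_cases h1 : e = a'
        · rw [h1, Function.update_self]
          have h5 : c < a := by
            rw [h1] at hlt
            by_contra h6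
            rw [not_lt] at h6
            have h7 : c ≠ a := fun h8 => ha (h8 ▸ hc'.2)
            exact absurd (h.ge (lt_of_le_of_ne h6 (Ne.symm h7))) (not_le.2 hlt)
          rw [hag a (Finset.mem_insert_self _ _) h5, Function.update_self]
        · rw [Function.update_of_ne h1]
          have h4 : e ∈ J.erase a' := Finset.mem_erase.2 ⟨h1, he⟩
          rw [hag e (Finset.mem_insert_of_mem h4) hlt, hup σ _ e h4])
      rwa [Function.update_of_ne hc'.1] at h3

/-- only column `a'` in the frame of `u s`, row `u a'` matched with the column `b` -/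
theorem LA.transfer_a'_b (h : LA u a a') (ha : a ∉ J) (ha' : a' ∈ J) {b : Fin n} (hb : b ∈ J)
    (hbρ : σ b = u a') (hσ : LexMax (u * Equiv.swap a a') I J σ) :
    b < a ∧ LexMax u I (insert a (J.erase b))
      (Function.update (Function.update σ a' (u a')) a (σ a')) := by
  classical
  have hba' : b ≠ a' := by
    intro h1
    have h2 := (h.cell_a'.1 (hσ.cell a' ha')).2
    rw [h1] at hbρ
    exact h2 hbρ
  have hba : b ≠ a := fun h1 => ha (h1 ▸ hb)
  have hlt : b < a := by
    have h1 := (hσ.cell b hb).2
    rw [hbρ, h.symm_a] at h1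
    exact lt_of_le_of_ne h1 hba
  refine ⟨hlt, ?_⟩
  -- first move the column `a'` onto ... : `J = insert b K`, the new set is `insert a K`
  have hbK : b ∉ J.erase b := Finset.notMem_erase b J
  have haK : a ∉ J.erase b := fun h1 => ha (Finset.mem_of_mem_erase h1)
  have ha'K : a' ∈ J.erase b := Finset.mem_erase.2 ⟨Ne.symm hba', ha'⟩
  have hins : insert b (J.erase b) = J := Finset.insert_erase hb
  have haJ' : a ∈ insert a (J.erase b) := Finset.mem_insert_self _ _
  have ha'J' : a' ∈ insert a (J.erase b) := Finset.mem_insert_of_mem ha'K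
  have haa' : a ≠ a' := h.ne
  -- from matchings of `insert a K` to matchings of `J`
  have hback : ∀ τ, Mat u I (insert a (J.erase b)) τ →
      τ a' = u a' ∧ Mat (u * Equiv.swap a a') I J
        (Function.update (Function.update τ a' (τ a)) b (u a')) := by
    intro τ hτ
    have hτa' : τ a' = u a' := (h.cell_right h.lt).1 (hτ.cell a' ha'J')
    have hτa : τ a ≠ u a' := by
      intro h1
      rw [← hτa'] at h1
      exact haa' (hτ.bij.injOn (Finset.mem_coe.2 haJ') (Finset.mem_coe.2 ha'J') h1)
    refine ⟨hτa', ?_, ?_⟩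
    · rw [← hins]
      apply bijOn_replace haK hbK (bijOn_swap hτ.bij haJ' ha'J')
      · rw [Function.update_self, Equiv.swap_apply_left, hτa']
      · intro c hc
        have h1 : c ≠ b := (Finset.mem_erase.1 hc).1
        have h2 : c ≠ a := fun h3 => haK (h3 ▸ hc)
        rw [Function.update_of_ne h1]
        by_cases h3 : c = a'
        · rw [h3, Function.update_self, Equiv.swap_apply_right]
        · rw [Function.update_of_ne h3, Equiv.swap_apply_of_ne_of_ne h2 h3]
    · intro c hc
      by_cases h1 : c = b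
      · rw [h1, Function.update_self, ← hbρ]
        exact hσ.cell b hb
      · rw [Function.update_of_ne h1]
        by_cases h3 : c = a'
        · rw [h3, Function.update_self]
          exact h.cell_a'.2 ⟨hτ.cell a haJ', hτa⟩
        · rw [Function.update_of_ne h3]
          exact (h.cell_other (fun h4 => ha (h4 ▸ hc)) h3).2
            (hτ.cell c (Finset.mem_insert_of_mem (Finset.mem_erase.2 ⟨h1, hc⟩)))
  have hval : ∀ c, c ≠ a → c ≠ a' →
      Function.update (Function.update σ a' (u a')) a (σ a') c = σ c := by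
    intro c h1 h2
    rw [Function.update_of_ne h1, Function.update_of_ne h2]
  have hvala : Function.update (Function.update σ a' (u a')) a (σ a') a = σ a' :=
    Function.update_self _ _ _
  have hvala' : Function.update (Function.update σ a' (u a')) a (σ a') a' = u a' := by
    rw [Function.update_of_ne (Ne.symm haa'), Function.update_self]
  refine ⟨⟨?_, ?_⟩, ?_⟩
  · have h1 : Set.BijOn (fun x => σ (Equiv.swap b a' x)) ↑(insert b (J.erase b)) ↑I := by
      rw [hins]
      exact bijOn_swap hσ.bij hb ha'
    apply bijOn_replace hbK haK h1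
    · rw [hvala, Equiv.swap_apply_left]
    · intro c hc
      have h2 : c ≠ b := (Finset.mem_erase.1 hc).1
      have h3 : c ≠ a := fun h4 => haK (h4 ▸ hc)
      by_cases h4 : c = a'
      · rw [h4, hvala', Equiv.swap_apply_right, hbρ]
      · rw [hval c h3 h4, Equiv.swap_apply_of_ne_of_ne h2 h4]
  · intro c hc
    rw [Finset.mem_insert] at hc
    by_cases h1 : c = a
    · rw [h1, hvala]
      exact (h.cell_a'.1 (hσ.cell a' ha')).1
    by_cases h2 : c = a'
    · rw [h2, hvala']
      exact ⟨le_refl _, by simp⟩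
    rcases hc with hc | hc
    · exact absurd hc h1
    · rw [hval c h1 h2]
      exact (h.cell_other h1 h2).1 (hσ.cell c (Finset.mem_of_mem_erase hc))
  · intro τ hτ c hc hag
    obtain ⟨hτa', hτ'⟩ := hback τ hτ
    rw [Finset.mem_insert] at hc
    have hτv : ∀ e ∈ J, e ≠ b → e ≠ a' →
        Function.update (Function.update τ a' (τ a)) b (u a') e = τ e := by
      intro e _ h1 h2
      rw [Function.update_of_ne h1, Function.update_of_ne h2]
    by_cases h1 : c = a
    · rw [h1, hvala]
      have h3 := hσ.max _ hτ' a' ha' (by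
        intro e he hlt'
        have h4 : e ≠ a' := ne_of_gt hlt'
        have h5 : e ≠ b := fun h6 => absurd hlt' (not_lt.2 (by rw [h6]; exact (hlt.trans h.lt).le))
        have h6 : e ≠ a := fun h6 => absurd hlt' (not_lt.2 (by rw [h6]; exact h.lt.le))
        rw [hτv e he h5 h4]
        rw [hag e (Finset.mem_insert_of_mem (Finset.mem_erase.2 ⟨h5, he⟩))
          (by rw [h1]; exact h.lt.trans hlt'), hval e h6 h4])
      rwa [Function.update_of_ne (Ne.symm hba'), Function.update_self] at h3
    by_cases h2 : c = a'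
    · rw [h2, hvala', hτa']
    rcases hc with hc | hc
    · exact absurd hc h1
    rw [hval c h1 h2]
    have hc' := Finset.mem_erase.1 hc
    by_cases hca : c < a
    · have h3 := hσ.max _ hτ' c hc'.2 (by
        intro e he hlt'
        by_cases h4 : e = b
        · rw [h4, Function.update_self, hbρ]
        by_cases h5 : e = a'
        · rw [h5, Function.update_of_ne (Ne.symm hba'), Function.update_self,
            hag a haJ' hca, hvala]
        · have h6 : e ≠ a := fun h6 => ha (h6 ▸ he)
          rw [hτv e he h4 h5, hag e (Finset.mem_insert_of_mem (Finset.mem_erase.2 ⟨h4, he⟩)) hlt',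
            hval e h6 h5])
      rwa [hτv c hc'.2 hc'.1 h2] at h3
    · have h3 : a < c := lt_of_le_of_ne (not_lt.1 hca) (Ne.symm h1)
      have h4 := (h.cell_right h3).1 (hτ.cell c (Finset.mem_insert_of_mem hc))
      have h5 := (h.cell_other h1 h2).1 (hσ.cell c hc'.2)
      rw [h4]
      exact h5.1

end Pool.Agent.H29.KL
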