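import Pool.Agent.H29.KL.GB
import Pool.Agent.H38.KL.G1geo
import Pool.Agent.H78.KL.G2

/-!
# Gröbner tool for Kazhdan–Lusztig ideals (MP_a7460d_ag)

The lexicographically largest monomial of an element of `I_{u,v}` (columns from right to left, in a
column from bottom to top) is divisible by the leading term of a minor of size `> r_v(i,j)` on rows
`≥ i` and columns `≤ j`.
-/

namespace Pool.Agent.H29.KL

open Pool.Agent.H30.KL

variable {n : ℕ} {u v : Equiv.Perm (Fin n)}

theorem XV.det_eq_zero {M : Matrix (Fin n) (Fin n) ℂ} (hM : XV v M) {i j : Fin n}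
    {f g : Fin (rk v i j + 1) → Fin n} (hf : ∀ a, i ≤ f a) (hg : ∀ b, g b ≤ j) :
    (M.submatrix f g).det = 0 := by
  by_contra h0
  have h1 : IsUnit (M.submatrix f g) := by
    rw [Matrix.isUnit_iff_isUnit_det]
    exact isUnit_iff_ne_zero.2 h0
  have h2 := Matrix.rank_of_isUnit _ h1
  rw [Fintype.card_fin] at h2
  have h3 : M.submatrix f g = (Matrix.of fun a r => if f a = r then (1 : ℂ) else 0) *
      trunc i j M * (Matrix.of fun c b => if c = g b then (1 : ℂ) else 0) := by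
    ext x y
    simp only [Matrix.mul_apply, Matrix.of_apply, Matrix.submatrix_apply, ite_mul, one_mul,
      zero_mul, Finset.sum_ite_eq, Finset.mem_univ, if_true, mul_ite, mul_one, mul_zero,
      Finset.sum_ite_eq']
    rw [trunc, if_pos ⟨hf x, hg y⟩]
  have h4 : (M.submatrix f g).rank ≤ rk v i j := by
    rw [h3]
    exact (Matrix.rank_mul_le_left _ _).trans ((Matrix.rank_mul_le_right _ _).trans (hM i j))
  omega

/-- the label of a variable of the chart `u` -/
def lab (u : Equiv.Perm (Fin n)) (p : Free u) : Fin n × Fin n := (p.1.1, u p.1.2)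

theorem lab_injective (u : Equiv.Perm (Fin n)) : Function.Injective (lab u) := by
  intro p q hpq
  rw [lab, lab, Prod.mk.injEq] at hpq
  exact Subtype.ext (Prod.ext hpq.1 (u.injective hpq.2))

theorem van_of_mem {h : MvPolynomial (Free u) ℂ} (hh : h ∈ klIdeal u v) :
    Van u v (MvPolynomial.rename (lab u) h) := by
  intro ξ hξ
  rw [ev, MvPolynomial.eval_rename]
  set φ := MvPolynomial.eval ((fun p : Fin n × Fin n => ξ p.1 p.2) ∘ lab u) with hφ
  have h1 : klIdeal u v ≤ RingHom.ker φ := by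
    rw [klIdeal, Ideal.span_le]
    rintro x ⟨i, j, f, g, hf, hg, rfl⟩
    rw [SetLike.mem_coe, RingHom.mem_ker, RingHom.map_det]
    have h2 : φ.mapMatrix ((Zmat u).submatrix f g) = (Zp u ξ).submatrix f g := by
      ext x y
      rw [RingHom.mapMatrix_apply, Matrix.map_apply, Matrix.submatrix_apply,
        Matrix.submatrix_apply, Zmat, Matrix.of_apply, Zp]
      split_ifs with h3 h4
      · rw [hφ, MvPolynomial.eval_X]
        rfl
      · exact map_one _
      · exact map_zero _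
    rw [h2]
    exact hξ.det_eq_zero hf hg
  exact RingHom.mem_ker.1 (h1 hh)

theorem bad_of_mem_klIdeal {h : MvPolynomial (Free u) ℂ} (hh : h ∈ klIdeal u v)
    {m : Free u →₀ ℕ} (hm : m ∈ h.support)
    (hmax : ∀ m' ∈ h.support, ∀ x : Free u, (∀ y : Free u,
      (x.1.2 < y.1.2 ∨ (x.1.2 = y.1.2 ∧ x.1.1 < y.1.1)) → m' y = m y) → m' x ≤ m x) :
    Bad u v (fun r α => m.mapDomain (lab u) (r, α) ≠ 0) := by
  classical
  have hsupp := MvPolynomial.support_rename_of_injective (p := h) (lab_injective u)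
  have hnot : ∀ m' : Free u →₀ ℕ, ∀ x, m'.mapDomain (lab u) x ≠ 0 → ∃ p, lab u p = x := by
    intro m' x hx
    by_contra hcon
    exact hx (Finsupp.mapDomain_of_notMem_range m' x (fun ⟨p, hp⟩ => hcon ⟨p, hp⟩))
  apply gb (fun u a a' h ξ => Pool.Agent.H38.KL.g1geo h ξ)
    (fun u v a a' h ξ hX => Pool.Agent.H78.KL.g2geo h ξ hX) (nfr u) u v _ _ le_rfl ?_
    (van_of_mem hh)
  refine ⟨?_, ?_, ?_⟩
  · intro m' _ x hx
    rw [hsupp, Finset.mem_image] at *
    rename_i h1
    obtain ⟨m1, _, rfl⟩ := h1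
    obtain ⟨p, rfl⟩ := hnot m1 x hx
    refine ⟨p.2.1, ?_⟩
    rw [lab]
    simpa using p.2.2
  · rw [hsupp, Finset.mem_image]
    exact ⟨m, hm, rfl⟩
  · intro m' hm' x hx
    rw [hsupp, Finset.mem_image] at hm'
    obtain ⟨m1, hm1, rfl⟩ := hm'
    by_cases h1 : m1.mapDomain (lab u) x = 0
    · rw [h1]
      exact Nat.zero_le _
    obtain ⟨p, rfl⟩ := hnot m1 x h1
    rw [Finsupp.mapDomain_apply (lab_injective u), Finsupp.mapDomain_apply (lab_injective u)]
    apply hmax m1 hm1 p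
    intro q hq
    have h2 := hx (lab u q) (by
      rw [lab, lab]
      rcases hq with h3 | ⟨h3, h4⟩
      · left
        simpa using h3
      · right
        exact ⟨by rw [h3], h4⟩)
    rwa [Finsupp.mapDomain_apply (lab_injective u), Finsupp.mapDomain_apply (lab_injective u)]
      at h2

/-- a leading matching of the right size -/
theorem Bad.exact {S : Fin n → Fin n → Prop} (h : Bad u v S) :
    ∃ (i j : Fin n) (I J : Finset (Fin n)) (σ : Fin n → Fin n), (∀ r ∈ I, i ≤ r) ∧
      (∀ c ∈ J, c ≤ j) ∧ J.card = rk v i j + 1 ∧ LexMax u I J σ ∧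
      ∀ c ∈ J, σ c ≠ u c → S (σ c) (u c) := by
  classical
  obtain ⟨i, j, I, J, σ, hI, hJ, hcard, hσ, hS⟩ := h
  obtain ⟨k, hk⟩ := Nat.exists_eq_add_of_lt hcard
  induction k generalizing I J with
  | zero => exact ⟨i, j, I, J, σ, hI, hJ, by omega, hσ, hS⟩
  | succ k ih =>
    have hne : J.Nonempty := by
      rw [← Finset.card_pos]
      omega
    obtain ⟨b, hb⟩ := hne
    have hc := Finset.card_erase_of_mem hb
    exact ih (I.erase (σ b)) (J.erase b) (fun r hr => hI r (Finset.mem_of_mem_erase hr))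
      (fun c hc => hJ c (Finset.mem_of_mem_erase hc)) (by omega) (hσ.erase hb)
      (fun c hc => hS c (Finset.mem_of_mem_erase hc)) (by omega)

/-- **Gröbner tool.** Let `m` be the lexicographically largest exponent of `h ∈ I_{u,v}`. Then the
leading matching `σ` of some minor of size `r_v(i,j) + 1` on rows `I ⊆ [i, n)` and columns
`J ⊆ [0, j]` uses only ones of `u` and variables dividing the monomial of `m`. -/
theorem tool {h : MvPolynomial (Free u) ℂ} (hh : h ∈ klIdeal u v)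
    {m : Free u →₀ ℕ} (hm : m ∈ h.support)
    (hmax : ∀ m' ∈ h.support, ∀ x : Free u, (∀ y : Free u,
      (x.1.2 < y.1.2 ∨ (x.1.2 = y.1.2 ∧ x.1.1 < y.1.1)) → m' y = m y) → m' x ≤ m x) :
    ∃ (i j : Fin n) (I J : Finset (Fin n)) (σ : Fin n → Fin n), (∀ r ∈ I, i ≤ r) ∧
      (∀ c ∈ J, c ≤ j) ∧ J.card = rk v i j + 1 ∧ LexMax u I J σ ∧
      ∀ c ∈ J, σ c ≠ u c → ∃ hc : u c < σ c ∧ c < u.symm (σ c), m ⟨(σ c, c), hc⟩ ≠ 0 := by
  obtain ⟨i, j, I, J, σ, hI, hJ, hcard, hσ, hS⟩ := (bad_of_mem_klIdeal hh hm hmax).exact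
  refine ⟨i, j, I, J, σ, hI, hJ, hcard, hσ, ?_⟩
  intro c hc hne
  have h1 := hS c hc hne
  have h2 := hσ.cell c hc
  have h3 : u c < σ c ∧ c < u.symm (σ c) := by
    refine ⟨lt_of_le_of_ne h2.1 (Ne.symm hne), lt_of_le_of_ne h2.2 ?_⟩
    intro h4
    have h5 := congrArg u h4
    rw [Equiv.apply_symm_apply] at h5
    exact hne h5.symm
  refine ⟨h3, ?_⟩
  have h4 : lab u ⟨(σ c, c), h3⟩ = (σ c, u c) := rfl
  rw [← h4, Finsupp.mapDomain_apply (lab_injective u)] at h1
  exact h1

end Pool.Agent.H29.KL
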