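import Pool.Agent.H29.KL.Tool
import Pool.Agent.H44.KL.Mt

/-!
# Gröbner tool for Kazhdan–Lusztig ideals: matchings of vertices (MP_a7460d_ag)
-/

namespace Pool.Agent.H29.KL

open Pool.Agent.H30.KL Pool.Agent.H44.KL

variable {n : ℕ} {u v : Equiv.Perm (Fin n)}

/-- the leading matching of the tool as a matching of vertices -/
theorem LexMax.ldr {i j : Fin n} {I J : Finset (Fin n)} {σ : Fin n → Fin n} (hI : ∀ r ∈ I, i ≤ r)
    (hJ : ∀ c ∈ J, c ≤ j) (hcard : J.card = rk v i j + 1) (h : LexMax u I J σ) :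
    Ldr u v i j J (Finset.univ.filter fun x => u x ∈ I) (fun y => u.symm (σ y)) := by
  classical
  refine ⟨?_, hJ, hcard, ⟨⟨?_, ?_, ?_⟩, ?_⟩, ?_⟩
  · intro x hx
    rw [Finset.mem_filter] at hx
    exact hI _ hx.2
  · intro y hy
    rw [Finset.mem_coe, Finset.mem_filter]
    refine ⟨Finset.mem_univ _, ?_⟩
    rw [Equiv.apply_symm_apply]
    exact Finset.mem_coe.1 (h.bij.mapsTo hy)
  · intro y hy z hz hyz
    exact h.bij.injOn hy hz (u.symm.injective hyz)
  · intro x hx
    rw [Finset.mem_coe, Finset.mem_filter] at hx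
    obtain ⟨y, hy, hyx⟩ := h.bij.surjOn (Finset.mem_coe.2 hx.2)
    exact ⟨y, hy, by simp [hyx]⟩
  · intro y hy hne
    have h1 := h.cell y hy
    have h2 : y < u.symm (σ y) := lt_of_le_of_ne h1.2 (Ne.symm hne)
    refine ⟨h2, ?_⟩
    rw [Equiv.apply_symm_apply]
    refine lt_of_le_of_ne h1.1 (fun h3 => hne ?_)
    rw [← h3, Equiv.symm_apply_apply]
  · rintro t ht ⟨d, hd, hag, hlt⟩
    dsimp only at hag hlt
    rw [Equiv.apply_symm_apply] at hlt
    have h1 : Mat u I J (fun y => u (t y)) := by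
      refine ⟨⟨?_, ?_, ?_⟩, ?_⟩
      · intro y hy
        have h2 := ht.mem (Finset.mem_coe.1 hy)
        rw [Finset.mem_filter] at h2
        exact Finset.mem_coe.2 h2.2
      · intro y hy z hz hyz
        exact ht.inj (Finset.mem_coe.1 hy) (Finset.mem_coe.1 hz) (u.injective hyz)
      · intro r hr
        obtain ⟨y, hy, hyr⟩ := ht.surj (b := u.symm r) (by
          rw [Finset.mem_filter]
          refine ⟨Finset.mem_univ _, ?_⟩
          rw [Equiv.apply_symm_apply]
          exact Finset.mem_coe.1 hr)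
        exact ⟨y, Finset.mem_coe.2 hy, by simp [hyr]⟩
      · intro c hc
        refine ⟨ht.le_val hc, ?_⟩
        rw [Equiv.symm_apply_apply]
        exact ht.le hc
    have h2 := h.max _ h1 d hd (by
      intro c' hc' hlt'
      rw [hag c' hc' hlt', Equiv.apply_symm_apply])
    exact absurd hlt (not_lt.2 h2)

/-- **Gröbner tool** for matchings of vertices -/
theorem tool_ldr {h : MvPolynomial (Free u) ℂ} (hh : h ∈ klIdeal u v)
    {m : Free u →₀ ℕ} (hm : m ∈ h.support)
    (hmax : ∀ m' ∈ h.support, ∀ x : Free u, (∀ y : Free u,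
      (x.1.2 < y.1.2 ∨ (x.1.2 = y.1.2 ∧ x.1.1 < y.1.1)) → m' y = m y) → m' x ≤ m x) :
    ∃ (i j : Fin n) (G F : Finset (Fin n)) (μ : Fin n → Fin n), Ldr u v i j G F μ ∧
      ∀ y ∈ G, μ y ≠ y → ∃ hc : u y < u (μ y) ∧ y < u.symm (u (μ y)),
        m ⟨(u (μ y), y), hc⟩ ≠ 0 := by
  obtain ⟨i, j, I, J, σ, hI, hJ, hcard, hσ, hS⟩ := tool hh hm hmax
  refine ⟨i, j, J, _, _, hσ.ldr hI hJ hcard, ?_⟩
  intro y hy hne
  have h1 : σ y ≠ u y := by
    intro h1
    apply hne
    rw [h1, Equiv.symm_apply_apply]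
  obtain ⟨hc, h2⟩ := hS y hy h1
  have h3 : u (u.symm (σ y)) = σ y := Equiv.apply_symm_apply _ _
  refine ⟨by rw [h3]; exact hc, ?_⟩
  have h4 : (⟨(u (u.symm (σ y)), y), by rw [h3]; exact hc⟩ : Free u) = ⟨(σ y, y), hc⟩ :=
    Subtype.ext (Prod.ext h3 rfl)
  rw [h4]
  exact h2

/-- the exponent of the monomial of a matching -/
noncomputable def expo (u : Equiv.Perm (Fin n)) (A : Finset (Fin n)) (s : Fin n → Fin n) :
    Free u →₀ ℕ :=
  Finsupp.equivFunOnFinite.symm fun x =>
    if x.1.2 ∈ A ∧ s x.1.2 ≠ x.1.2 ∧ u (s x.1.2) = x.1.1 then 1 else 0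

theorem expo_apply (u : Equiv.Perm (Fin n)) (A : Finset (Fin n)) (s : Fin n → Fin n) (x : Free u) :
    expo u A s x = if x.1.2 ∈ A ∧ s x.1.2 ≠ x.1.2 ∧ u (s x.1.2) = x.1.1 then 1 else 0 := rfl

theorem expo_lex {A B : Finset (Fin n)} {s t : Fin n → Fin n} (hs : Mt u A B s) (ht : Mt u A B t)
    (hst : ¬ Lt u A s t) (x : Free u)
    (hx : ∀ y : Free u, (x.1.2 < y.1.2 ∨ (x.1.2 = y.1.2 ∧ x.1.1 < y.1.1)) →
      expo u A t y = expo u A s y) : expo u A t x ≤ expo u A s x := by
  by_contra hcon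
  rw [expo_apply, expo_apply] at hcon
  by_cases h1 : x.1.2 ∈ A ∧ t x.1.2 ≠ x.1.2 ∧ u (t x.1.2) = x.1.1
  · have h2 : ¬ (x.1.2 ∈ A ∧ s x.1.2 ≠ x.1.2 ∧ u (s x.1.2) = x.1.1) := by
      intro h2
      rw [if_pos h1, if_pos h2] at hcon
      exact hcon le_rfl
    apply hst
    have key : ∀ {p q : Fin n → Fin n}, Mt u A B p → Mt u A B q → ∀ y ∈ A, p y ≠ y →
        (∀ z : Free u, z.1 = (u (p y), y) → expo u A p z = expo u A q z) → p y = q y := by
      intro p q hp _ y hy hpy heq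
      have h3 := hp.up y hy hpy
      have h4 : u y < u (p y) ∧ y < u.symm (u (p y)) := by
        refine ⟨h3.2, ?_⟩
        rw [Equiv.symm_apply_apply]
        exact h3.1
      have h5 := heq ⟨(u (p y), y), h4⟩ rfl
      rw [expo_apply, expo_apply, if_pos ⟨hy, hpy, rfl⟩] at h5
      by_contra h6
      rw [if_neg] at h5
      · exact absurd h5 one_ne_zero
      · rintro ⟨_, _, h7⟩
        exact h6 (u.injective h7).symm
    refine ⟨x.1.2, h1.1, ?_, ?_⟩
    · intro y hy hlt
      by_contra hne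
      by_cases h3 : t y = y
      · have h4 : s y ≠ y := fun h5 => hne (h3.trans h5.symm)
        apply hne
        refine (key hs ht y hy h4 ?_).symm
        intro z hz
        refine (hx z (Or.inl ?_)).symm
        rw [hz]
        exact hlt
      · apply hne
        refine key ht hs y hy h3 ?_
        intro z hz
        refine hx z (Or.inl ?_)
        rw [hz]
        exact hlt
    · rcases lt_trichotomy (u (s x.1.2)) (u (t x.1.2)) with h3 | h3 | h3
      · exact h3
      · exfalso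
        apply h2
        have h4 := u.injective h3
        rw [h4]
        exact h1
      · exfalso
        have h4 : s x.1.2 ≠ x.1.2 := by
          intro h4
          rw [h4] at h3
          exact absurd (ht.up _ h1.1 h1.2.1).2 (not_lt.2 h3.le)
        have h5 := key hs ht _ h1.1 h4 (by
          intro z hz
          refine (hx z (Or.inr ?_)).symm
          rw [hz]
          refine ⟨rfl, ?_⟩
          rw [← h1.2.2]
          exact h3)
        rw [h5] at h3
        exact lt_irrefl _ h3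
  · rw [if_neg h1] at hcon
    exact hcon (Nat.zero_le _)

/-- **Gröbner tool** for sums of matchings: `s` is the largest matching of `h` -/
theorem tool_mt {A B : Finset (Fin n)} {s : Fin n → Fin n} (hs : Mt u A B s)
    {h : MvPolynomial (Free u) ℂ} (hh : h ∈ klIdeal u v) (hc : h.coeff (expo u A s) ≠ 0)
    (hsupp : ∀ m' ∈ h.support, ∃ t, Mt u A B t ∧ m' = expo u A t ∧ ¬ Lt u A s t) :
    ∃ (i j : Fin n) (G F : Finset (Fin n)) (μ : Fin n → Fin n), Ldr u v i j G F μ ∧
      ∀ y ∈ G, μ y ≠ y → y ∈ A ∧ μ y = s y := by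
  obtain ⟨i, j, G, F, μ, hL, hS⟩ := tool_ldr hh (MvPolynomial.mem_support_iff.2 hc) (by
    intro m' hm' x hx
    obtain ⟨t, ht, rfl, hst⟩ := hsupp m' hm'
    exact expo_lex hs ht hst x hx)
  refine ⟨i, j, G, F, μ, hL, ?_⟩
  intro y hy hne
  obtain ⟨hc, h1⟩ := hS y hy hne
  rw [expo_apply] at h1
  have h2 : y ∈ A ∧ s y ≠ y ∧ u (s y) = u (μ y) := by
    by_contra h2
    exact h1 (if_neg h2)
  exact ⟨h2.1, (u.injective h2.2.2).symm⟩

end Pool.Agent.H29.KL
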